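import Mathlib

set_option autoImplicit false

namespace Pool.Agent.H43.L1

open Finset

/-- The unit-distance graph of `ℓ₁^d`: two points of `ℝ^d` are adjacent when their
`ℓ₁`-distance is `1`. -/
def unitGraph (d : ℕ) : SimpleGraph (Fin d → ℝ) where
  Adj x y := ∑ i, |x i - y i| = 1
  symm := ⟨fun x y h => by
    rw [← h]
    exact Finset.sum_congr rfl fun i _ => abs_sub_comm _ _⟩
  loopless := ⟨fun x h => by simp at h⟩

/-- `Y n k = √(k (n - k))`. -/
noncomputable def Y (n k : ℕ) : ℝ := √((k : ℝ) * ((n : ℝ) - (k : ℝ)))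

/-- `τ(n) = (1/n) ∑_{k<n} (√((k+1)(n-k-1)) - √(k(n-k)))²`. -/
noncomputable def tau (n : ℕ) : ℝ := (∑ k ∈ range n, (Y n (k + 1) - Y n k) ^ 2) / n

end Pool.Agent.H43.L1
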