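import Pool.Agent.H43.L1.Cut

set_option autoImplicit false

namespace Pool.Agent.H43.L1

open Finset

theorem pair_sum (b : ℕ → ℤ) (hb : ∀ i, b i = 0 ∨ b i = 1) (N : ℕ) :
    2 * ∑ p ∈ range N, ∑ q ∈ range p, b p * b q
      = (∑ p ∈ range N, b p) * ((∑ p ∈ range N, b p) - 1) := by
  induction N with
  | zero => simp
  | succ N ih =>
    rw [sum_range_succ, sum_range_succ b, mul_add, ih, ← mul_sum]
    rcases hb N with h | h <;> rw [h] <;> ring

/-- Lower bounds for all cuts from the subset check. -/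
theorem cut_lower {n : ℕ} (E : ℕ → ℕ → ℤ) (hs : ∀ p q, E p q = E q p) (h0 : ∀ p, E p p = 0)
    (v : ℕ → ℤ) (w : ℕ → ℕ → ℕ) (g : ℕ → ℕ) (th : List ℕ) (M F : ℤ)
    (hw : ∀ p < n, ∀ q < p, (w q p : ℤ) = M - 2 * E q p)
    (hg : ∀ p < n, (g p : ℤ) = ∑ q ∈ range (n + 1), E p q + F)
    (hth : ∀ k ≤ n, 2 * (th.getD k 0 : ℤ) = 2 * F * k + M * (k * (k - 1)) - 2 * v k)
    (hv : ∀ k ≤ n + 1, v (n + 1 - k) = v k)
    (hchk : chk (rowsSeg w 0 n) (seg g 0 n) 0 th = true)
    (S : Finset (Fin (n + 1))) :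
    -(2 * v S.card) ≤ cutW (fun p q : Fin (n + 1) => E p.val q.val) S := by
  wlog hlast : Fin.last n ∉ S generalizing S
  · have := this Sᶜ (by simpa using hlast)
    rw [cutW_compl, card_compl, Fintype.card_fin, hv _ (by simpa using card_le_univ S)] at this
    exact this
  set β : ℕ → ℕ := fun i => if h : i < n + 1 then (if (⟨i, h⟩ : Fin (n + 1)) ∈ S then 1 else 0)
    else 0 with hβ
  set b : ℕ → ℤ := fun i => (β i : ℤ) with hbdef
  have hβ01 : ∀ i, β i = 0 ∨ β i = 1 := by
    intro i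
    simp only [hβ]
    split_ifs <;> simp
  have hb01 : ∀ i, b i = 0 ∨ b i = 1 := by
    intro i
    simp only [hbdef]
    rcases hβ01 i with h | h <;> rw [h] <;> simp
  have hbS : ∀ p : Fin (n + 1), b p.val = if p ∈ S then 1 else 0 := by
    intro p
    simp only [hbdef, hβ, p.2, dif_pos]
    split_ifs <;> simp
  have hbn : b n = 0 := by
    have := hbS (Fin.last n)
    rw [if_neg hlast] at this
    exact this
  have hcard : (S.card : ℤ) = ∑ i ∈ range n, b i := by
    have h1 : ∑ i ∈ range (n + 1), b i = ∑ p : Fin (n + 1), b p.val :=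
      (Fin.sum_univ_eq_sum_range b (n + 1)).symm
    rw [sum_range_succ, hbn, add_zero] at h1
    rw [h1, sum_congr rfl fun p _ => hbS p]
    simp
  have hcardN : S.card = ∑ i ∈ range n, β i := by
    have : ((S.card : ℕ) : ℤ) = ((∑ i ∈ range n, β i : ℕ) : ℤ) := by
      rw [hcard]
      push_cast
      rfl
    exact_mod_cast this
  have hkn : S.card ≤ n := by
    rw [hcardN]
    calc ∑ i ∈ range n, β i ≤ ∑ _i ∈ range n, 1 := sum_le_sum fun i _ => by
            rcases hβ01 i with h | h <;> rw [h] <;> simp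
      _ = n := by simp
  have hmain := chk_sound w β hβ01 n 0 g 0 th hchk
  simp only [zero_add] at hmain
  rw [← hcardN] at hmain
  have hmain' : ((th.getD S.card 0 : ℕ) : ℤ) ≤ ∑ i ∈ range n, b i * (g i : ℤ)
      + ∑ i ∈ range n, ∑ j ∈ range i, b i * b j * (w j i : ℤ) := by
    have := (Int.ofNat_le.2 hmain)
    push_cast at this
    exact this
  have e1 : ∑ i ∈ range n, b i * (g i : ℤ)
      = ∑ i ∈ range n, b i * (∑ q ∈ range (n + 1), E i q) + F * S.card := by
    rw [hcard, mul_sum, ← sum_add_distrib]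
    refine sum_congr rfl fun i hi => ?_
    rw [hg i (mem_range.1 hi)]
    ring
  have e2 : ∑ i ∈ range n, ∑ j ∈ range i, b i * b j * (w j i : ℤ)
      = M * ∑ i ∈ range n, ∑ j ∈ range i, b i * b j
        - 2 * ∑ i ∈ range n, ∑ j ∈ range i, b i * b j * E j i := by
    simp only [mul_sum, ← sum_sub_distrib]
    refine sum_congr rfl fun i hi => sum_congr rfl fun j hj => ?_
    rw [hw i (mem_range.1 hi) j (mem_range.1 hj)]
    ring
  have e3 := pair_sum b hb01 n
  rw [← hcard] at e3
  have e4 := hth S.card hkn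
  rw [cutW_eq E hs h0 S b hbS, sum_range_succ, sum_range_succ (fun p => ∑ q ∈ range p,
    b p * b q * E q p)]
  simp only [hbn, zero_mul, sum_const_zero, add_zero]
  rw [e1, e2] at hmain'
  linear_combination 2 * hmain' - e4 + M * e3

theorem chk_node {r : List ℕ} {rs : List (List ℕ)} {g : ℕ} {gs : List ℕ} {c : ℕ} {th : List ℕ}
    (h1 : chk rs gs c th = true) (h2 : chk rs (zipAdd gs r) (c + g) th.tail = true) :
    chk (r :: rs) (g :: gs) c th = true := by
  simp [chk, h1, h2]

/-- Symmetric matrix from the list of the rows of its upper triangle. -/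
def symE (T : List (List ℤ)) (p q : ℕ) : ℤ :=
  if p < q then (T.getD p []).getD (q - p - 1) 0
  else if q < p then (T.getD q []).getD (p - q - 1) 0 else 0

theorem symE_symm (T : List (List ℤ)) (p q : ℕ) : symE T p q = symE T q p := by
  unfold symE
  rcases lt_trichotomy p q with h | h | h
  · rw [if_pos h, if_neg (by omega), if_pos h]
  · subst h
    rfl
  · rw [if_neg (by omega), if_pos h, if_pos h]

theorem symE_self (T : List (List ℤ)) (p : ℕ) : symE T p p = 0 := by
  simp [symE]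

/-- `n + 1` points with pairwise `ℓ₁`-distance `1` do not exist in `ℝ^d`. -/
theorem no_equilateral_of_cert (n d : ℕ) (T : List (List ℤ)) (V : List ℤ) (R : List (List ℕ))
    (G : List ℕ) (th : List ℕ) (M F : ℤ) (hd : 1 ≤ d)
    (h1 : ∀ k < n, ((d : ℤ) - 1) * (2 * V.getD (k + 1) 0) ≤ ∑ p ∈ range (n + 1),
      ∑ q ∈ range (n + 1), if (p ≤ k ↔ q ≤ k) then 0 else symE T p q)
    (h2 : ∑ p ∈ range (n + 1), ∑ q ∈ range (n + 1), symE T p q < 0)
    (h3 : ∀ p < n, ∀ q < p, 0 ≤ M - 2 * symE T q p)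
    (h4 : ∀ p < n, 0 ≤ ∑ q ∈ range (n + 1), symE T p q + F)
    (h5 : ∀ k < n + 1, 2 * (th.getD k 0 : ℤ) = 2 * F * k + M * (k * (k - 1)) - 2 * V.getD k 0)
    (h6 : ∀ k < n + 2, V.getD (n + 1 - k) 0 = V.getD k 0)
    (h7 : R = rowsSeg (fun q p => (M - 2 * symE T q p).toNat) 0 n)
    (h8 : G = seg (fun p => (∑ q ∈ range (n + 1), symE T p q + F).toNat) 0 n)
    (h9 : chk R G 0 th = true) :
    ¬ ∃ x : Fin (n + 1) → Fin d → ℝ, ∀ p q, p ≠ q → ∑ i, |x p i - x q i| = 1 := by
  refine two_level (fun p q : Fin (n + 1) => symE T p.val q.val) (fun k => 2 * V.getD k 0)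
    (fun p => symE_self T p) ?_ ?_ ?_ hd
  · intro k hk
    refine (h1 k hk).trans (le_of_eq ?_)
    unfold cutW
    rw [← Fin.sum_univ_eq_sum_range (fun p => ∑ q ∈ range (n + 1),
      if (p ≤ k ↔ q ≤ k) then 0 else symE T p q) (n + 1)]
    refine sum_congr rfl fun p _ => ?_
    rw [← Fin.sum_univ_eq_sum_range (fun q => if (p.val ≤ k ↔ q ≤ k) then 0 else
      symE T p.val q) (n + 1)]
    refine sum_congr rfl fun q _ => ?_
    simp only [mem_filter, mem_univ, true_and]
  · intro S _ _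
    refine cut_lower (symE T) (symE_symm T) (symE_self T) (fun k => V.getD k 0)
      (fun q p => (M - 2 * symE T q p).toNat)
      (fun p => (∑ q ∈ range (n + 1), symE T p q + F).toNat) th M F ?_ ?_ ?_ ?_ ?_ S
    · intro p hp q hq
      exact Int.toNat_of_nonneg (h3 p hp q hq)
    · intro p hp
      exact Int.toNat_of_nonneg (h4 p hp)
    · intro k hk
      exact h5 k (by omega)
    · intro k hk
      exact h6 k (by omega)
    · rw [← h7, ← h8]
      exact h9
  · refine lt_of_le_of_lt (le_of_eq ?_) h2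
    rw [← Fin.sum_univ_eq_sum_range (fun p => ∑ q ∈ range (n + 1), symE T p q) (n + 1)]
    refine sum_congr rfl fun p _ => ?_
    rw [← Fin.sum_univ_eq_sum_range (fun q => symE T p.val q) (n + 1)]

end Pool.Agent.H43.L1
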