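import Pool.Agent.H43.L1.Cert

set_option autoImplicit false
set_option maxRecDepth 100000

namespace Pool.Agent.H43.L1.C11

open Pool.Agent.H43.L1

def T : List (List ℤ) := [[-179, -71, -44, -27, -8, 12, 30, 58, 162, 299],
  [-58, -30, -12, -2, 9, 20, 22, 32, 162],
  [-24, -12, -2, 7, 12, 12, 22, 58],
  [-11, -8, -6, 5, 12, 20, 30],
  [-9, -8, -6, 7, 9, 12],
  [-9, -8, -2, -2, -8],
  [-11, -12, -12, -27],
  [-24, -30, -44],
  [-58, -71],
  [-179]]

def V : List ℤ := [0, 58, 136, 187, 222, 237, 237, 222, 187, 136, 58, 0]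

def R : List (List ℕ) := [[682, 466, 412, 378, 340, 300, 264, 208, 0],
  [440, 384, 348, 328, 306, 284, 280, 260],
  [372, 348, 328, 310, 300, 300, 280],
  [346, 340, 336, 314, 300, 284],
  [342, 340, 336, 310, 306],
  [342, 340, 328, 328],
  [346, 348, 348],
  [372, 384],
  [440],
  []]

def G : List ℕ := [290, 22, 2, 2, 1, 0, 1, 2, 2, 22]

def th : List ℕ := [0, 0, 304, 959, 1954, 3293, 4971, 6988, 9349, 12050, 15102]

theorem no_equilateral :
    ¬ ∃ x : Fin 11 → Fin 5 → ℝ, ∀ p q, p ≠ q → ∑ i, |x p i - x q i| = 1 :=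
  no_equilateral_of_cert 10 5 T V R G th 324 58 (by decide) (by decide +kernel)
    (by decide +kernel) (by decide +kernel) (by decide +kernel) (by decide +kernel)
    (by decide +kernel) (by decide +kernel) (by decide +kernel) (by decide +kernel)

end Pool.Agent.H43.L1.C11
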