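import Pool.Agent.H43.L1.Cert

set_option autoImplicit false
set_option maxRecDepth 100000

namespace Pool.Agent.H43.L1.C14

open Pool.Agent.H43.L1

def T : List (List ℤ) := [[-270, -130, -89, -58, -39, -18, 9, 28, 54, 81, 117, 230, 418],
  [-96, -58, -31, -15, -4, 10, 20, 33, 48, 48, 76, 230],
  [-44, -28, -15, -4, 10, 17, 20, 20, 20, 48, 117],
  [-27, -14, -7, -5, -1, 12, 20, 20, 48, 81],
  [-15, -11, -10, -4, -1, 12, 20, 33, 54],
  [-11, -10, -6, -4, -1, 17, 20, 28],
  [-14, -10, -10, -5, 10, 10, 9],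
  [-11, -11, -7, -4, -4, -18],
  [-15, -14, -15, -15, -39],
  [-27, -28, -31, -58],
  [-44, -58, -89],
  [-96, -130],
  [-270]]

def V : List ℤ := [0, 66, 171, 248, 312, 355, 382, 389, 382, 355, 312, 248, 171, 66, 0]

def R : List (List ℕ) := [[1000, 720, 638, 576, 538, 496, 442, 404, 352, 298, 226, 0],
  [652, 576, 522, 490, 468, 440, 420, 394, 364, 364, 308],
  [548, 516, 490, 468, 440, 426, 420, 420, 420, 364],
  [514, 488, 474, 470, 462, 436, 420, 420, 364],
  [490, 482, 480, 468, 462, 436, 420, 394],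
  [482, 480, 472, 468, 462, 426, 420],
  [488, 480, 480, 470, 440, 440],
  [482, 482, 474, 468, 468],
  [490, 488, 490, 490],
  [514, 516, 522],
  [548, 576],
  [652],
  []]

def G : List ℕ := [399, 57, 1, 2, 0, 1, 1, 1, 1, 0, 2, 1, 57]

def th : List ℕ := [0, 0, 421, 1330, 2712, 4575, 6914, 9733, 13026, 16799, 21048, 25778, 30981, 36672]

theorem no_equilateral :
    ¬ ∃ x : Fin 14 → Fin 6 → ℝ, ∀ p q, p ≠ q → ∑ i, |x p i - x q i| = 1 :=
  no_equilateral_of_cert 13 6 T V R G th 460 66 (by decide) (by decide +kernel)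
    (by decide +kernel) (by decide +kernel) (by decide +kernel) (by decide +kernel)
    (by decide +kernel) (by decide +kernel) (by decide +kernel) (by decide +kernel)

end Pool.Agent.H43.L1.C14
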