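import Pool.Agent.H43.L1.Defs

set_option autoImplicit false

namespace Pool.Agent.H43.L1

open Finset

theorem cliqueFree_of_not {N d : ℕ}
    (h : ¬ ∃ x : Fin N → Fin d → ℝ, ∀ p q, p ≠ q → ∑ i, |x p i - x q i| = 1) :
    (unitGraph d).CliqueFree N := by
  intro s hs
  apply h
  have e : Fin N ≃ s := (Fintype.equivFinOfCardEq (by simpa using hs.card_eq)).symm
  refine ⟨fun p => (e p : Fin d → ℝ), fun p q hpq => ?_⟩
  have hne : (e p : Fin d → ℝ) ≠ e q := fun h' => hpq (e.injective (Subtype.ext h'))
  exact hs.isClique (e p).2 (e q).2 hne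

/-- The point `± e_i / 2`. -/
noncomputable def halfPt (d : ℕ) (a : Fin d × Bool) : Fin d → ℝ :=
  Pi.single a.1 (if a.2 then (1 / 2 : ℝ) else -(1 / 2))

theorem halfPt_dist (d : ℕ) (a b : Fin d × Bool) (hab : a ≠ b) :
    ∑ i, |halfPt d a i - halfPt d b i| = 1 := by
  obtain ⟨i, s⟩ := a
  obtain ⟨j, t⟩ := b
  have hv : ∀ s : Bool, |(if s then (1 / 2 : ℝ) else -(1 / 2))| = 1 / 2 := by
    intro s
    cases s <;> norm_num [abs_of_nonneg, abs_of_neg]
  by_cases hij : i = j
  · subst hij
    have hst : s ≠ t := fun h => hab (by rw [h])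
    rw [Finset.sum_eq_single i]
    · simp only [halfPt, Pi.single_eq_same]
      cases s <;> cases t <;> simp at hst ⊢ <;> norm_num [abs_of_nonneg, abs_of_neg]
    · intro k _ hk
      simp [halfPt, hk]
    · simp
  · have h1 : ∀ k, |halfPt d (i, s) k - halfPt d (j, t) k|
        = (if k = i then (1 / 2 : ℝ) else 0) + (if k = j then (1 / 2 : ℝ) else 0) := by
      intro k
      simp only [halfPt, Pi.single_apply]
      by_cases hki : k = i
      · subst hki
        simp only [if_true, if_neg hij, sub_zero, add_zero]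
        exact hv s
      · simp only [if_neg hki, zero_sub, abs_neg, zero_add]
        split_ifs with h
        · simpa only [if_true] using hv true
        · norm_num [abs_of_nonneg, abs_of_neg]
        · simp
    rw [sum_congr rfl fun k _ => h1 k, sum_add_distrib]
    simp
    norm_num

theorem exists_clique (d : ℕ) : ∃ s : Finset (Fin d → ℝ), (unitGraph d).IsNClique (2 * d) s := by
  have hinj : Function.Injective (halfPt d) := by
    intro a b hab
    by_contra hne
    have := halfPt_dist d a b hne
    rw [hab] at this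
    simp at this
  refine ⟨univ.map ⟨halfPt d, hinj⟩, ?_, ?_⟩
  · intro x hx y hy hxy
    simp only [coe_map, Function.Embedding.coeFn_mk, coe_univ, Set.image_univ,
      Set.mem_range] at hx hy
    obtain ⟨a, rfl⟩ := hx
    obtain ⟨b, rfl⟩ := hy
    exact halfPt_dist d a b fun h => hxy (by rw [h])
  · simp [mul_comm]

theorem cliqueNum_eq {d : ℕ} (h : (unitGraph d).CliqueFree (2 * d + 1)) :
    (unitGraph d).cliqueNum = 2 * d := by
  have hub : ∀ n ∈ {n | ∃ s, (unitGraph d).IsNClique n s}, n ≤ 2 * d := by
    rintro n ⟨s, hs⟩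
    by_contra hn
    push Not at hn
    exact (h.mono hn) s hs
  apply le_antisymm
  · exact csSup_le ⟨_, exists_clique d⟩ hub
  · exact le_csSup ⟨2 * d, hub⟩ (exists_clique d)

end Pool.Agent.H43.L1
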