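import Pool.Agent.H43.L1.TwoLevel

set_option autoImplicit false

namespace Pool.Agent.H43.L1

open Finset

/-! ### The subset check -/

/-- Pointwise addition of lists of naturals. -/
def zipAdd : List ℕ → List ℕ → List ℕ
  | a :: as, b :: bs => (a + b) :: zipAdd as bs
  | _, _ => []

/-- The check: all choices of subsets. -/
def chk : List (List ℕ) → List ℕ → ℕ → List ℕ → Bool
  | r :: rs, g :: gs, c, th => chk rs gs c th && chk rs (zipAdd gs r) (c + g) th.tail
  | _, _, c, th => Nat.ble th.headI c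

/-- `[g p, g (p+1), …, g (p+m-1)]`. -/
def seg (g : ℕ → ℕ) : ℕ → ℕ → List ℕ
  | _, 0 => []
  | p, m + 1 => g p :: seg g (p + 1) m

/-- rows `[w p (p+1), …]`. -/
def rowsSeg (w : ℕ → ℕ → ℕ) : ℕ → ℕ → List (List ℕ)
  | _, 0 => []
  | p, m + 1 => seg (w p) (p + 1) m :: rowsSeg w (p + 1) m

theorem zipAdd_seg (g h : ℕ → ℕ) (p m : ℕ) :
    zipAdd (seg g p m) (seg h p m) = seg (fun i => g i + h i) p m := by
  induction m generalizing p with
  | zero => rfl
  | succ m ih => simp [seg, zipAdd, ih]

theorem chk_sound (w : ℕ → ℕ → ℕ) (β : ℕ → ℕ) (hβ : ∀ i, β i = 0 ∨ β i = 1) (m : ℕ) :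
    ∀ (p : ℕ) (g : ℕ → ℕ) (c : ℕ) (th : List ℕ),
    chk (rowsSeg w p m) (seg g p m) c th = true →
    th.getD (∑ i ∈ range m, β (p + i)) 0 ≤ c + ∑ i ∈ range m, β (p + i) * g (p + i)
      + ∑ i ∈ range m, ∑ j ∈ range i, β (p + i) * β (p + j) * w (p + j) (p + i) := by
  induction m with
  | zero =>
    intro p g c th h
    simp only [rowsSeg, seg, chk] at h
    simp only [range_zero, sum_empty, add_zero]
    have := Nat.le_of_ble_eq_true h
    cases th with
    | nil => simp
    | cons a l => simpa using this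
  | succ m ih =>
    intro p g c th h
    simp only [rowsSeg, seg, chk, Bool.and_eq_true, zipAdd_seg] at h
    obtain ⟨h1, h2⟩ := h
    have e : ∀ i, p + 1 + i = p + (i + 1) := fun i => by ring
    rw [sum_range_succ', sum_range_succ', sum_range_succ']
    simp only [range_zero, sum_empty, add_zero, sum_range_succ']
    rcases hβ p with h0 | h0
    · simp only [h0, zero_mul, mul_zero, add_zero]
      have := ih (p + 1) g c th h1
      simp only [e] at this
      exact this
    · simp only [h0, one_mul, mul_one]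
      have := ih (p + 1) (fun i => g i + w p i) (c + g p) th.tail h2
      have e2 : th.tail.getD (∑ i ∈ range m, β (p + 1 + i)) 0
          = th.getD (∑ i ∈ range m, β (p + 1 + i) + 1) 0 := by
        cases th <;> simp
      rw [e2] at this
      simp only [e] at this
      refine this.trans (le_of_eq ?_)
      simp only [mul_add, sum_add_distrib]
      ring

/-! ### Cuts in terms of indicator functions -/

theorem double_sum_symm (f : ℕ → ℕ → ℤ) (hs : ∀ p q, f p q = f q p) (h0 : ∀ p, f p p = 0)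
    (N : ℕ) : ∑ p ∈ range N, ∑ q ∈ range N, f p q = 2 * ∑ p ∈ range N, ∑ q ∈ range p, f q p := by
  induction N with
  | zero => simp
  | succ N ih =>
    rw [sum_range_succ, sum_range_succ (fun p => ∑ q ∈ range p, f q p)]
    simp only [sum_range_succ _ N, sum_add_distrib]
    rw [ih, h0]
    have : ∑ x ∈ range N, f N x = ∑ x ∈ range N, f x N := sum_congr rfl fun x _ => hs _ _
    rw [this]
    ring

theorem cutW_eq (E : ℕ → ℕ → ℤ) (hs : ∀ p q, E p q = E q p) (h0 : ∀ p, E p p = 0)
    {N : ℕ} (S : Finset (Fin N)) (b : ℕ → ℤ)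
    (hb : ∀ p : Fin N, b p.val = if p ∈ S then 1 else 0) :
    cutW (fun p q : Fin N => E p.val q.val) S
      = 2 * ∑ p ∈ range N, b p * (∑ q ∈ range N, E p q)
        - 4 * ∑ p ∈ range N, ∑ q ∈ range p, b p * b q * E q p := by
  have h1 : cutW (fun p q : Fin N => E p.val q.val) S
      = ∑ p : Fin N, ∑ q : Fin N, (b p + b q - 2 * b p * b q) * E p q := by
    unfold cutW
    refine sum_congr rfl fun p _ => sum_congr rfl fun q _ => ?_
    rw [hb p, hb q]
    by_cases hp : p ∈ S <;> by_cases hq : q ∈ S <;> simp [hp, hq]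
  rw [h1]
  have h2 : ∑ p : Fin N, ∑ q : Fin N, (b p + b q - 2 * b p * b q) * E p q
      = ∑ p ∈ range N, ∑ q ∈ range N, (b p + b q - 2 * b p * b q) * E p q := by
    rw [← Fin.sum_univ_eq_sum_range (fun p => ∑ q ∈ range N,
      (b p + b q - 2 * b p * b q) * E p q) N]
    refine sum_congr rfl fun p _ => ?_
    rw [← Fin.sum_univ_eq_sum_range (fun q => (b p + b q - 2 * b p * b q) * E p q) N]
  rw [h2]
  have h3 : ∑ p ∈ range N, ∑ q ∈ range N, (b p + b q - 2 * b p * b q) * E p q
      = ∑ p ∈ range N, ∑ q ∈ range N, b p * E p q + ∑ p ∈ range N, ∑ q ∈ range N, b q * E p q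
        - 2 * ∑ p ∈ range N, ∑ q ∈ range N, b p * b q * E p q := by
    simp only [mul_sum, ← sum_add_distrib, ← sum_sub_distrib]
    refine sum_congr rfl fun p _ => sum_congr rfl fun q _ => ?_
    ring
  rw [h3]
  have h4 : ∑ p ∈ range N, ∑ q ∈ range N, b q * E p q
      = ∑ p ∈ range N, ∑ q ∈ range N, b p * E p q := by
    rw [sum_comm]
    refine sum_congr rfl fun p _ => sum_congr rfl fun q _ => ?_
    rw [hs]
  rw [h4, double_sum_symm (fun p q => b p * b q * E p q)
    (fun p q => by simp only [hs p q]; ring) (fun p => by simp [h0])]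
  have h5 : ∑ p ∈ range N, ∑ q ∈ range p, b q * b p * E q p
      = ∑ p ∈ range N, ∑ q ∈ range p, b p * b q * E q p :=
    sum_congr rfl fun p _ => sum_congr rfl fun q _ => by ring
  have h6 : ∑ p ∈ range N, b p * (∑ q ∈ range N, E p q)
      = ∑ p ∈ range N, ∑ q ∈ range N, b p * E p q := by
    simp only [mul_sum]
  rw [h5, h6]
  ring

theorem cutW_compl {N : ℕ} (D : Fin N → Fin N → ℤ) (S : Finset (Fin N)) :
    cutW D Sᶜ = cutW D S := by
  unfold cutW
  refine sum_congr rfl fun p _ => sum_congr rfl fun q _ => ?_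
  by_cases hp : p ∈ S <;> by_cases hq : q ∈ S <;> simp [hp, hq]

end Pool.Agent.H43.L1
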