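import Pool.Agent.H43.L1.Defs

set_option autoImplicit false

namespace Pool.Agent.H43.L1

open Finset

/-- Abel summation. -/
theorem abel (u G : ℕ → ℝ) (N : ℕ) :
    ∑ k ∈ range N, (G (k + 1) - G k) * ∑ r ∈ range (k + 1), u r
      = ∑ r ∈ range N, u r * (G N - G r) := by
  induction N with
  | zero => simp
  | succ N ih =>
    have h : ∑ r ∈ range N, u r * (G (N + 1) - G r)
        = ∑ r ∈ range N, u r * (G N - G r) + (G (N + 1) - G N) * ∑ r ∈ range N, u r := by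
      rw [Finset.mul_sum, ← Finset.sum_add_distrib]
      exact Finset.sum_congr rfl fun r _ => by ring
    rw [Finset.sum_range_succ, ih, Finset.sum_range_succ (fun r => u r * (G (N + 1) - G r)), h,
      Finset.sum_range_succ u]
    ring

/-- The quadratic form of a line metric as a sum over cuts. -/
theorem quad (u G : ℕ → ℝ) (hG : Monotone G) (N : ℕ) :
    ∑ r ∈ range (N + 1), ∑ s ∈ range (N + 1), u r * u s * |G r - G s|
      = 2 * ∑ k ∈ range N, (G (k + 1) - G k) *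
          ((∑ r ∈ range (k + 1), u r) *
            ((∑ r ∈ range (N + 1), u r) - ∑ r ∈ range (k + 1), u r)) := by
  induction N with
  | zero => simp
  | succ N ih =>
    have h1 : ∀ r ∈ range (N + 1), u r * u (N + 1) * |G r - G (N + 1)|
        = u (N + 1) * (u r * (G (N + 1) - G r)) := by
      intro r hr
      have : G r ≤ G (N + 1) := hG (by simp at hr; omega)
      rw [abs_of_nonpos (by linarith)]
      ring
    have h2 : ∀ r ∈ range (N + 1), u (N + 1) * u r * |G (N + 1) - G r|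
        = u (N + 1) * (u r * (G (N + 1) - G r)) := by
      intro r hr
      have : G r ≤ G (N + 1) := hG (by simp at hr; omega)
      rw [abs_of_nonneg (by linarith)]
      ring
    have h3 : ∑ r ∈ range (N + 2), ∑ s ∈ range (N + 2), u r * u s * |G r - G s|
        = ∑ r ∈ range (N + 1), ∑ s ∈ range (N + 1), u r * u s * |G r - G s|
          + 2 * (u (N + 1) * ∑ r ∈ range (N + 1), u r * (G (N + 1) - G r)) := by
      rw [Finset.sum_range_succ]
      have : ∀ r, ∑ s ∈ range (N + 2), u r * u s * |G r - G s|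
          = ∑ s ∈ range (N + 1), u r * u s * |G r - G s|
            + u r * u (N + 1) * |G r - G (N + 1)| := fun r => Finset.sum_range_succ _ _
      simp only [this]
      rw [Finset.sum_add_distrib, Finset.sum_congr rfl h1, Finset.sum_congr rfl h2]
      simp only [sub_self, abs_zero, mul_zero, add_zero]
      rw [← Finset.mul_sum]
      ring
    rw [h3, ih, ← abel, Finset.sum_range_succ (fun k => (G (k + 1) - G k) *
          ((∑ r ∈ range (k + 1), u r) *
            ((∑ r ∈ range (N + 1 + 1), u r) - ∑ r ∈ range (k + 1), u r)))]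
    have h4 : ∑ k ∈ range N, (G (k + 1) - G k) *
          ((∑ r ∈ range (k + 1), u r) *
            ((∑ r ∈ range (N + 1 + 1), u r) - ∑ r ∈ range (k + 1), u r))
        = ∑ k ∈ range N, (G (k + 1) - G k) *
          ((∑ r ∈ range (k + 1), u r) *
            ((∑ r ∈ range (N + 1), u r) - ∑ r ∈ range (k + 1), u r))
          + u (N + 1) * ∑ k ∈ range N, (G (k + 1) - G k) * ∑ r ∈ range (k + 1), u r := by
      rw [Finset.mul_sum, ← Finset.sum_add_distrib]
      refine Finset.sum_congr rfl fun k _ => ?_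
      rw [Finset.sum_range_succ u (N + 1)]
      ring
    rw [h4, Finset.sum_range_succ (fun k => (G (k + 1) - G k) * ∑ r ∈ range (k + 1), u r),
      Finset.sum_range_succ u (N + 1)]
    ring

/-- The same for a function on `Fin (N+1)`, with its increasing rearrangement. -/
theorem quadFin {N : ℕ} (f : Fin (N + 1) → ℝ) :
    ∃ a : ℕ → ℝ, (∀ k, 0 ≤ a k) ∧
      (∀ w : Fin (N + 1) → ℝ, ∀ W : ℕ → ℝ, (∀ r : Fin (N + 1), W r = w (Tuple.sort f r)) →
        ∑ p, ∑ q, w p * w q * |f p - f q|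
          = 2 * ∑ k ∈ range N, a k * ((∑ r ∈ range (k + 1), W r) *
              ((∑ r ∈ range (N + 1), W r) - ∑ r ∈ range (k + 1), W r))) := by
  set σ := Tuple.sort f with hσ
  have hmono : Monotone (f ∘ σ) := Tuple.monotone_sort f
  let G : ℕ → ℝ := fun k => f (σ ⟨min k N, by omega⟩)
  have hG : Monotone G := by
    intro a b hab
    exact hmono (by
      rw [Fin.le_def]
      simp only
      omega)
  refine ⟨fun k => G (k + 1) - G k, ?_, ?_⟩
  · intro k
    have := hG (Nat.le_succ k)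
    simpa using this
  · intro w W hW
    rw [← quad W G hG N]
    rw [← Fin.sum_univ_eq_sum_range (fun r => ∑ s ∈ range (N + 1), W r * W s * |G r - G s|)]
    rw [← Equiv.sum_comp σ]
    refine Finset.sum_congr rfl fun r _ => ?_
    rw [← Fin.sum_univ_eq_sum_range (fun s => W r * W s * |G r - G s|), ← Equiv.sum_comp σ]
    refine Finset.sum_congr rfl fun s _ => ?_
    have hr : (⟨min (r : ℕ) N, by omega⟩ : Fin (N + 1)) = r := by
      ext
      simp only
      omega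
    have hs : (⟨min (s : ℕ) N, by omega⟩ : Fin (N + 1)) = s := by
      ext
      simp only
      omega
    simp only [G, hr, hs, hW]

/-- A line metric is of negative type. -/
theorem negType {N : ℕ} (f w : Fin (N + 1) → ℝ) (hw : ∑ p, w p = 0) :
    ∑ p, ∑ q, w p * w q * |f p - f q| ≤ 0 := by
  obtain ⟨a, ha, h⟩ := quadFin f
  let W : ℕ → ℝ := fun k => w (Tuple.sort f ⟨min k N, by omega⟩)
  have hW : ∀ r : Fin (N + 1), W r = w (Tuple.sort f r) := by
    intro r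
    have hr : (⟨min (r : ℕ) N, by omega⟩ : Fin (N + 1)) = r := by
      ext
      simp only
      omega
    simp only [W, hr]
  have hT : ∑ r ∈ range (N + 1), W r = 0 := by
    rw [← Fin.sum_univ_eq_sum_range (fun r => W r), Finset.sum_congr rfl fun r _ => hW r,
      Equiv.sum_comp (Tuple.sort f) w, hw]
  rw [h w W hW, hT]
  have : 0 ≤ ∑ k ∈ range N, a k * (∑ r ∈ range (k + 1), W r) ^ 2 :=
    Finset.sum_nonneg fun k _ => mul_nonneg (ha k) (sq_nonneg _)
  have e : ∑ k ∈ range N, a k * ((∑ r ∈ range (k + 1), W r) * (0 - ∑ r ∈ range (k + 1), W r))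
      = -∑ k ∈ range N, a k * (∑ r ∈ range (k + 1), W r) ^ 2 := by
    rw [← Finset.sum_neg_distrib]
    exact Finset.sum_congr rfl fun k _ => by ring
  rw [e]
  linarith

theorem Y_zero (n : ℕ) : Y n 0 = 0 := by simp [Y]

theorem Y_self (n : ℕ) : Y n n = 0 := by simp [Y]

theorem Y_sq {n k : ℕ} (h : k ≤ n) : Y n k ^ 2 = (k : ℝ) * ((n : ℝ) - (k : ℝ)) := by
  unfold Y
  rw [Real.sq_sqrt]
  have : (k : ℝ) ≤ n := by exact_mod_cast h
  exact mul_nonneg (Nat.cast_nonneg _) (by linarith)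

/-- `n τ(n)`, the energy of the sequence `Y n`. -/
noncomputable def energy (n : ℕ) : ℝ := ∑ k ∈ range n, (Y n (k + 1) - Y n k) ^ 2

/-- The test vector of the coordinate `f`. -/
noncomputable def testVec {N : ℕ} (f : Fin (N + 1) → ℝ) (p : Fin (N + 1)) : ℝ :=
  Y (N + 1) (((Tuple.sort f).symm p : Fin (N + 1)) + 1) - Y (N + 1) ((Tuple.sort f).symm p : Fin (N + 1))

theorem testVec_sum {N : ℕ} (f : Fin (N + 1) → ℝ) : ∑ p, testVec f p = 0 := by
  rw [← Equiv.sum_comp (Tuple.sort f)]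
  simp only [testVec, Equiv.symm_apply_apply]
  rw [Fin.sum_univ_eq_sum_range (fun k => Y (N + 1) (k + 1) - Y (N + 1) k), Finset.sum_range_sub,
    Y_self, Y_zero, sub_zero]

theorem testVec_sq {N : ℕ} (f : Fin (N + 1) → ℝ) : ∑ p, testVec f p ^ 2 = energy (N + 1) := by
  rw [← Equiv.sum_comp (Tuple.sort f)]
  simp only [testVec, Equiv.symm_apply_apply]
  rw [Fin.sum_univ_eq_sum_range (fun k => (Y (N + 1) (k + 1) - Y (N + 1) k) ^ 2), energy]

theorem testVec_form {N : ℕ} (f : Fin (N + 1) → ℝ) :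
    ∑ p, ∑ q, testVec f p * testVec f q * |f p - f q| = -∑ p, ∑ q, |f p - f q| := by
  obtain ⟨a, ha, h⟩ := quadFin f
  have h1 := h (testVec f) (fun k => Y (N + 1) (k + 1) - Y (N + 1) k) (fun r => by
    simp only [testVec, Equiv.symm_apply_apply])
  have h2 := h (fun _ => 1) (fun _ => 1) (fun r => rfl)
  simp only [one_mul] at h2
  rw [h1, h2, ← mul_neg, ← Finset.sum_neg_distrib]
  congr 1
  refine Finset.sum_congr rfl fun k hk => ?_
  have hk' : k + 1 ≤ N + 1 := by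
    have := Finset.mem_range.1 hk
    omega
  rw [Finset.sum_range_sub, Finset.sum_range_sub, Y_self, Y_zero]
  have := Y_sq (n := N + 1) hk'
  simp only [Finset.sum_const, Finset.card_range, nsmul_eq_mul, mul_one]
  linear_combination -(a k) * this

/-- The main inequality. -/
theorem main {N d : ℕ} (x : Fin (N + 1) → Fin d → ℝ)
    (hx : ∀ p q, p ≠ q → ∑ i, |x p i - x q i| = 1) :
    ((N : ℝ) + 1) * N ≤ d * energy (N + 1) := by
  -- one coordinate
  have key : ∀ i, ∑ p, ∑ q, |x p i - x q i| ≤ energy (N + 1) := by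
    intro i
    set v := testVec (fun p => x p i) with hv
    have hv0 : ∑ p, v p = 0 := testVec_sum _
    have hv2 : ∑ p, v p ^ 2 = energy (N + 1) := testVec_sq _
    have hsum : ∑ j, ∑ p, ∑ q, v p * v q * |x p j - x q j| = -energy (N + 1) := by
      rw [Finset.sum_comm]
      have e1 : ∀ p, ∑ j, ∑ q, v p * v q * |x p j - x q j|
          = v p * ∑ q, v q * (if p = q then 0 else 1) := by
        intro p
        rw [Finset.sum_comm, Finset.mul_sum]
        refine Finset.sum_congr rfl fun q _ => ?_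
        rw [← Finset.mul_sum]
        split_ifs with hpq
        · subst hpq
          simp
        · rw [hx p q hpq]
          ring
      rw [Finset.sum_congr rfl fun p _ => e1 p]
      have e2 : ∀ p, ∑ q, v q * (if p = q then (0 : ℝ) else 1) = -v p := by
        intro p
        have : ∀ q, v q * (if p = q then (0 : ℝ) else 1) = v q - (if p = q then v q else 0) := by
          intro q
          split_ifs <;> ring
        rw [Finset.sum_congr rfl fun q _ => this q, Finset.sum_sub_distrib, hv0]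
        simp
      rw [Finset.sum_congr rfl fun p _ => by rw [e2 p], ← hv2, ← Finset.sum_neg_distrib]
      exact Finset.sum_congr rfl fun p _ => by ring
    have hneg : ∀ j ∈ (univ : Finset (Fin d)),
        ∑ p, ∑ q, v p * v q * |x p j - x q j| ≤ 0 := fun j _ => negType (fun p => x p j) v hv0
    have h3 : ∑ j, ∑ p, ∑ q, v p * v q * |x p j - x q j|
        ≤ ∑ p, ∑ q, v p * v q * |x p i - x q i| := by
      rw [← Finset.add_sum_erase univ _ (Finset.mem_univ i)]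
      have : ∑ j ∈ univ.erase i, ∑ p, ∑ q, v p * v q * |x p j - x q j| ≤ 0 :=
        Finset.sum_nonpos fun j hj => hneg j (Finset.mem_univ j)
      linarith
    have h4 : ∑ p, ∑ q, v p * v q * |x p i - x q i| = -∑ p, ∑ q, |x p i - x q i| :=
      testVec_form (fun p => x p i)
    linarith
  have h5 : ∑ i, ∑ p, ∑ q, |x p i - x q i| = ((N : ℝ) + 1) * N := by
    rw [Finset.sum_comm]
    have e1 : ∀ p : Fin (N + 1), ∑ i, ∑ q, |x p i - x q i| = N := by
      intro p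
      rw [Finset.sum_comm]
      have : ∀ q, ∑ i, |x p i - x q i| = 1 - (if p = q then 1 else 0) := by
        intro q
        split_ifs with hpq
        · subst hpq
          simp
        · rw [hx p q hpq]
          ring
      rw [Finset.sum_congr rfl fun q _ => this q, Finset.sum_sub_distrib]
      simp
    rw [Finset.sum_congr rfl fun p _ => e1 p]
    simp
  rw [← h5]
  calc ∑ i, ∑ p, ∑ q, |x p i - x q i| ≤ ∑ _i : Fin d, energy (N + 1) :=
        Finset.sum_le_sum fun i _ => key i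
    _ = d * energy (N + 1) := by simp

/-! ### The size of `τ` -/

/-- `k + 1/2 - √(k(k+1))`. -/
noncomputable def A (k : ℕ) : ℝ := (k : ℝ) + 1 / 2 - √((k : ℝ) * ((k : ℝ) + 1))

theorem A_nonneg (k : ℕ) : 0 ≤ A k := by
  unfold A
  have : √((k : ℝ) * ((k : ℝ) + 1)) ≤ (k : ℝ) + 1 / 2 := by
    rw [Real.sqrt_le_left (by positivity)]
    nlinarith
  linarith

theorem A_zero : A 0 = 1 / 2 := by simp [A]

/-- `(k+1/2) A_k ≥ 1/8`. -/
theorem A_lower (k : ℕ) : 1 / 8 ≤ ((k : ℝ) + 1 / 2) * A k := by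
  unfold A
  set s := √((k : ℝ) * ((k : ℝ) + 1)) with hs
  have h0 : 0 ≤ s := Real.sqrt_nonneg _
  have h1 : s ^ 2 = (k : ℝ) * ((k : ℝ) + 1) := Real.sq_sqrt (by positivity)
  have hk : (0 : ℝ) ≤ k := Nat.cast_nonneg k
  nlinarith [sq_nonneg ((k : ℝ) + 1 / 2 - s)]

theorem A_upper {k : ℕ} (hk : 1 ≤ k) :
    A k ≤ 1 / 8 * (Real.log ((k : ℝ) + 1) - Real.log k) := by
  have hk0 : (0 : ℝ) < k := by exact_mod_cast hk
  set r := √(k : ℝ) with hr
  set t := √((k : ℝ) + 1) with ht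
  have hr0 : 0 < r := Real.sqrt_pos.2 hk0
  have ht0 : 0 < t := Real.sqrt_pos.2 (by linarith)
  have hr2 : r ^ 2 = k := Real.sq_sqrt hk0.le
  have ht2 : t ^ 2 = (k : ℝ) + 1 := Real.sq_sqrt (by linarith)
  have hrt : r ≤ t := Real.sqrt_le_sqrt (by linarith)
  have hA : A k = 1 / 2 * (t - r) ^ 2 := by
    unfold A
    rw [Real.sqrt_mul hk0.le, ← hr, ← ht]
    nlinarith
  have hlog : Real.log ((k : ℝ) + 1) - Real.log k = 2 * Real.log (1 + (t / r - 1)) := by
    rw [← ht2, ← hr2, Real.log_pow, Real.log_pow]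
    rw [show (1 : ℝ) + (t / r - 1) = t / r by ring, Real.log_div ht0.ne' hr0.ne']
    push_cast
    ring
  have h1 : 0 ≤ t / r - 1 := by
    rw [sub_nonneg, le_div_iff₀ hr0]
    linarith
  have h2 := Real.le_log_one_add_of_nonneg h1
  have h3 : 2 * (t / r - 1) / (t / r - 1 + 2) = 2 * (t - r) ^ 2 := by
    have h4 : (t - r) * (t + r) = 1 := by nlinarith
    have h5 : t + r ≠ 0 := by positivity
    have h6 : t / r - 1 + 2 = (t + r) / r := by
      field_simp
      ring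
    have h7 : t / r - 1 = (t - r) / r := by
      field_simp
    rw [h6, h7]
    rw [div_eq_iff (by positivity)]
    field_simp
    nlinarith
  rw [hA, hlog]
  linarith

theorem A_sum (n : ℕ) : ∑ k ∈ range (n + 1), A k ≤ 1 / 2 + 1 / 8 * Real.log ((n : ℝ) + 1) := by
  induction n with
  | zero => simp [A_zero]
  | succ n ih =>
    rw [Finset.sum_range_succ]
    have := A_upper (k := n + 1) (by omega)
    push_cast at this ⊢
    linarith

/-- Termwise bound. -/
theorem term_le {n k : ℕ} (hk : k < n) :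
    (Y n (k + 1) - Y n k) ^ 2 ≤ 2 * ((k : ℝ) + 1 / 2) * A (n - 1 - k)
      + 2 * (((n - 1 - k : ℕ) : ℝ) + 1 / 2) * A k - 1 / 2 := by
  obtain ⟨m, rfl⟩ : ∃ m, n = k + 1 + m := ⟨n - 1 - k, by omega⟩
  have hm : k + 1 + m - 1 - k = m := by omega
  rw [hm]
  have h1 := Y_sq (n := k + 1 + m) (k := k + 1) (by omega)
  have h2 := Y_sq (n := k + 1 + m) (k := k) (by omega)
  have h3 : Y (k + 1 + m) (k + 1) * Y (k + 1 + m) k
      = √((k : ℝ) * ((k : ℝ) + 1)) * √((m : ℝ) * ((m : ℝ) + 1)) := by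
    unfold Y
    push_cast
    rw [← Real.sqrt_mul (by ring_nf; positivity), ← Real.sqrt_mul (by positivity)]
    congr 1
    ring
  have h4 : √((k : ℝ) * ((k : ℝ) + 1)) = (k : ℝ) + 1 / 2 - A k := by
    unfold A
    ring
  have h5 : √((m : ℝ) * ((m : ℝ) + 1)) = (m : ℝ) + 1 / 2 - A m := by
    unfold A
    ring
  rw [h4, h5] at h3
  have h6 := mul_nonneg (A_nonneg k) (A_nonneg m)
  push_cast at h1 h2
  nlinarith

theorem energy_le {n : ℕ} (hn : 1 ≤ n) : energy n ≤ n * (1 + 1 / 2 * Real.log n) := by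
  obtain ⟨m, rfl⟩ : ∃ m, n = m + 1 := ⟨n - 1, by omega⟩
  have h1 : energy (m + 1) ≤ ∑ k ∈ range (m + 1), (2 * ((k : ℝ) + 1 / 2) * A (m + 1 - 1 - k)
      + 2 * (((m + 1 - 1 - k : ℕ) : ℝ) + 1 / 2) * A k - 1 / 2) :=
    Finset.sum_le_sum fun k hk => term_le (Finset.mem_range.1 hk)
  have h2 : ∑ k ∈ range (m + 1), 2 * ((k : ℝ) + 1 / 2) * A (m + 1 - 1 - k)
      = ∑ k ∈ range (m + 1), 2 * (((m + 1 - 1 - k : ℕ) : ℝ) + 1 / 2) * A k := by
    rw [← Finset.sum_range_reflect (fun k => 2 * ((k : ℝ) + 1 / 2) * A (m + 1 - 1 - k))]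
    refine Finset.sum_congr rfl fun k hk => ?_
    have hk' := Finset.mem_range.1 hk
    have : m + 1 - 1 - (m + 1 - 1 - k) = k := by omega
    rw [this]
  have h3 : ∑ k ∈ range (m + 1), 2 * (((m + 1 - 1 - k : ℕ) : ℝ) + 1 / 2) * A k
      = 2 * ((m : ℝ) + 1) * ∑ k ∈ range (m + 1), A k
        - 2 * ∑ k ∈ range (m + 1), ((k : ℝ) + 1 / 2) * A k := by
    rw [Finset.mul_sum, Finset.mul_sum, ← Finset.sum_sub_distrib]
    refine Finset.sum_congr rfl fun k hk => ?_
    have hk' := Finset.mem_range.1 hk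
    rw [Nat.cast_sub (by omega), Nat.add_sub_cancel]
    ring
  have h4 : ∑ k ∈ range (m + 1), (1 / 8 : ℝ) ≤ ∑ k ∈ range (m + 1), ((k : ℝ) + 1 / 2) * A k :=
    Finset.sum_le_sum fun k _ => A_lower k
  have h5 := A_sum m
  rw [Finset.sum_sub_distrib, Finset.sum_add_distrib, h2, h3] at h1
  simp only [Finset.sum_const, Finset.card_range, nsmul_eq_mul] at h1 h4
  have h6 : 2 * ((m : ℝ) + 1) * ∑ k ∈ range (m + 1), A k
      ≤ 2 * ((m : ℝ) + 1) * (1 / 2 + 1 / 8 * Real.log ((m : ℝ) + 1)) :=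
    mul_le_mul_of_nonneg_left h5 (by positivity)
  push_cast at h1 h4 ⊢
  nlinarith

/-! ### The clique bound -/

theorem tau_eq (n : ℕ) : tau n = energy n / n := rfl

theorem clique_energy {d n : ℕ} {s : Finset (Fin d → ℝ)} (h : (unitGraph d).IsNClique n s) :
    (n : ℝ) * ((n : ℝ) - 1) ≤ d * energy n := by
  rcases Nat.eq_zero_or_pos n with rfl | hn
  · simp [energy]
  · obtain ⟨N, rfl⟩ : ∃ N, n = N + 1 := ⟨n - 1, by omega⟩
    have hcard : s.card = N + 1 := h.card_eq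
    let e : Fin (N + 1) ≃ s := (s.equivFinOfCardEq hcard).symm
    have hx : ∀ p q : Fin (N + 1), p ≠ q →
        ∑ i, |(e p : Fin d → ℝ) i - (e q : Fin d → ℝ) i| = 1 := by
      intro p q hpq
      have hne : (e p : Fin d → ℝ) ≠ (e q : Fin d → ℝ) := fun he =>
        hpq (e.injective (Subtype.ext he))
      exact h.isClique (e p).2 (e q).2 hne
    have := main (fun p => (e p : Fin d → ℝ)) hx
    push_cast
    linarith

theorem cliqueFree_of {d n : ℕ} (h : d * energy n < (n : ℝ) * ((n : ℝ) - 1)) :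
    (unitGraph d).CliqueFree n := by
  intro s hs
  exact absurd (clique_energy hs) (not_le.2 h)

theorem Y_bounds {n k : ℕ} {l u : ℝ} (hk : k ≤ n) (hl : l ^ 2 ≤ (k : ℝ) * ((n : ℝ) - k))
    (hu0 : 0 ≤ u) (hu : (k : ℝ) * ((n : ℝ) - k) ≤ u ^ 2) : l ≤ Y n k ∧ Y n k ≤ u := by
  have h0 : 0 ≤ Y n k := Real.sqrt_nonneg _
  have h2 := Y_sq hk
  constructor
  · by_contra hc
    push Not at hc
    nlinarith
  · by_contra hc
    push Not at hc
    nlinarith

theorem step_le {a b l1 u1 l2 u2 e : ℝ} (ha : l1 ≤ a ∧ a ≤ u1) (hb : l2 ≤ b ∧ b ≤ u2)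
    (h1 : u2 - l1 ≤ e) (h2 : -e ≤ l2 - u1) : (b - a) ^ 2 ≤ e ^ 2 := by
  apply sq_le_sq'
  · linarith [ha.1, ha.2, hb.1, hb.2]
  · linarith [ha.1, ha.2, hb.1, hb.2]

theorem free_5_12 : (unitGraph 5).CliqueFree 12 := by
  apply cliqueFree_of
  have h0 : (0/10000 : ℝ) ≤ Y 12 0 ∧ Y 12 0 ≤ (0/10000 : ℝ) :=
    Y_bounds (by norm_num) (by norm_num) (by norm_num) (by norm_num)
  have h1 : (33166/10000 : ℝ) ≤ Y 12 1 ∧ Y 12 1 ≤ (33167/10000 : ℝ) :=
    Y_bounds (by norm_num) (by norm_num) (by norm_num) (by norm_num)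
  have h2 : (44721/10000 : ℝ) ≤ Y 12 2 ∧ Y 12 2 ≤ (44722/10000 : ℝ) :=
    Y_bounds (by norm_num) (by norm_num) (by norm_num) (by norm_num)
  have h3 : (51961/10000 : ℝ) ≤ Y 12 3 ∧ Y 12 3 ≤ (51962/10000 : ℝ) :=
    Y_bounds (by norm_num) (by norm_num) (by norm_num) (by norm_num)
  have h4 : (56568/10000 : ℝ) ≤ Y 12 4 ∧ Y 12 4 ≤ (56569/10000 : ℝ) :=
    Y_bounds (by norm_num) (by norm_num) (by norm_num) (by norm_num)
  have h5 : (59160/10000 : ℝ) ≤ Y 12 5 ∧ Y 12 5 ≤ (59161/10000 : ℝ) :=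
    Y_bounds (by norm_num) (by norm_num) (by norm_num) (by norm_num)
  have h6 : (60000/10000 : ℝ) ≤ Y 12 6 ∧ Y 12 6 ≤ (60000/10000 : ℝ) :=
    Y_bounds (by norm_num) (by norm_num) (by norm_num) (by norm_num)
  have h7 : (59160/10000 : ℝ) ≤ Y 12 7 ∧ Y 12 7 ≤ (59161/10000 : ℝ) :=
    Y_bounds (by norm_num) (by norm_num) (by norm_num) (by norm_num)
  have h8 : (56568/10000 : ℝ) ≤ Y 12 8 ∧ Y 12 8 ≤ (56569/10000 : ℝ) :=
    Y_bounds (by norm_num) (by norm_num) (by norm_num) (by norm_num)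
  have h9 : (51961/10000 : ℝ) ≤ Y 12 9 ∧ Y 12 9 ≤ (51962/10000 : ℝ) :=
    Y_bounds (by norm_num) (by norm_num) (by norm_num) (by norm_num)
  have h10 : (44721/10000 : ℝ) ≤ Y 12 10 ∧ Y 12 10 ≤ (44722/10000 : ℝ) :=
    Y_bounds (by norm_num) (by norm_num) (by norm_num) (by norm_num)
  have h11 : (33166/10000 : ℝ) ≤ Y 12 11 ∧ Y 12 11 ≤ (33167/10000 : ℝ) :=
    Y_bounds (by norm_num) (by norm_num) (by norm_num) (by norm_num)
  have h12 : (0/10000 : ℝ) ≤ Y 12 12 ∧ Y 12 12 ≤ (0/10000 : ℝ) :=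
    Y_bounds (by norm_num) (by norm_num) (by norm_num) (by norm_num)
  have d0 := step_le (e := 33167/10000) h0 h1 (by norm_num) (by norm_num)
  have d1 := step_le (e := 11556/10000) h1 h2 (by norm_num) (by norm_num)
  have d2 := step_le (e := 7241/10000) h2 h3 (by norm_num) (by norm_num)
  have d3 := step_le (e := 4608/10000) h3 h4 (by norm_num) (by norm_num)
  have d4 := step_le (e := 2593/10000) h4 h5 (by norm_num) (by norm_num)
  have d5 := step_le (e := 840/10000) h5 h6 (by norm_num) (by norm_num)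
  have d6 := step_le (e := 840/10000) h6 h7 (by norm_num) (by norm_num)
  have d7 := step_le (e := 2593/10000) h7 h8 (by norm_num) (by norm_num)
  have d8 := step_le (e := 4608/10000) h8 h9 (by norm_num) (by norm_num)
  have d9 := step_le (e := 7241/10000) h9 h10 (by norm_num) (by norm_num)
  have d10 := step_le (e := 11556/10000) h10 h11 (by norm_num) (by norm_num)
  have d11 := step_le (e := 33167/10000) h11 h12 (by norm_num) (by norm_num)
  have hE : energy 12 = (Y 12 1 - Y 12 0) ^ 2 + (Y 12 2 - Y 12 1) ^ 2 + (Y 12 3 - Y 12 2) ^ 2 + (Y 12 4 - Y 12 3) ^ 2 + (Y 12 5 - Y 12 4) ^ 2 + (Y 12 6 - Y 12 5) ^ 2 + (Y 12 7 - Y 12 6) ^ 2 + (Y 12 8 - Y 12 7) ^ 2 + (Y 12 9 - Y 12 8) ^ 2 + (Y 12 10 - Y 12 9) ^ 2 + (Y 12 11 - Y 12 10) ^ 2 + (Y 12 12 - Y 12 11) ^ 2 := by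
    simp [energy, Finset.sum_range_succ]
  rw [hE]
  push_cast
  linarith

theorem free_6_15 : (unitGraph 6).CliqueFree 15 := by
  apply cliqueFree_of
  have h0 : (0/10000 : ℝ) ≤ Y 15 0 ∧ Y 15 0 ≤ (0/10000 : ℝ) :=
    Y_bounds (by norm_num) (by norm_num) (by norm_num) (by norm_num)
  have h1 : (37416/10000 : ℝ) ≤ Y 15 1 ∧ Y 15 1 ≤ (37417/10000 : ℝ) :=
    Y_bounds (by norm_num) (by norm_num) (by norm_num) (by norm_num)
  have h2 : (50990/10000 : ℝ) ≤ Y 15 2 ∧ Y 15 2 ≤ (50991/10000 : ℝ) :=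
    Y_bounds (by norm_num) (by norm_num) (by norm_num) (by norm_num)
  have h3 : (60000/10000 : ℝ) ≤ Y 15 3 ∧ Y 15 3 ≤ (60000/10000 : ℝ) :=
    Y_bounds (by norm_num) (by norm_num) (by norm_num) (by norm_num)
  have h4 : (66332/10000 : ℝ) ≤ Y 15 4 ∧ Y 15 4 ≤ (66333/10000 : ℝ) :=
    Y_bounds (by norm_num) (by norm_num) (by norm_num) (by norm_num)
  have h5 : (70710/10000 : ℝ) ≤ Y 15 5 ∧ Y 15 5 ≤ (70711/10000 : ℝ) :=
    Y_bounds (by norm_num) (by norm_num) (by norm_num) (by norm_num)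
  have h6 : (73484/10000 : ℝ) ≤ Y 15 6 ∧ Y 15 6 ≤ (73485/10000 : ℝ) :=
    Y_bounds (by norm_num) (by norm_num) (by norm_num) (by norm_num)
  have h7 : (74833/10000 : ℝ) ≤ Y 15 7 ∧ Y 15 7 ≤ (74834/10000 : ℝ) :=
    Y_bounds (by norm_num) (by norm_num) (by norm_num) (by norm_num)
  have h8 : (74833/10000 : ℝ) ≤ Y 15 8 ∧ Y 15 8 ≤ (74834/10000 : ℝ) :=
    Y_bounds (by norm_num) (by norm_num) (by norm_num) (by norm_num)
  have h9 : (73484/10000 : ℝ) ≤ Y 15 9 ∧ Y 15 9 ≤ (73485/10000 : ℝ) :=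
    Y_bounds (by norm_num) (by norm_num) (by norm_num) (by norm_num)
  have h10 : (70710/10000 : ℝ) ≤ Y 15 10 ∧ Y 15 10 ≤ (70711/10000 : ℝ) :=
    Y_bounds (by norm_num) (by norm_num) (by norm_num) (by norm_num)
  have h11 : (66332/10000 : ℝ) ≤ Y 15 11 ∧ Y 15 11 ≤ (66333/10000 : ℝ) :=
    Y_bounds (by norm_num) (by norm_num) (by norm_num) (by norm_num)
  have h12 : (60000/10000 : ℝ) ≤ Y 15 12 ∧ Y 15 12 ≤ (60000/10000 : ℝ) :=
    Y_bounds (by norm_num) (by norm_num) (by norm_num) (by norm_num)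
  have h13 : (50990/10000 : ℝ) ≤ Y 15 13 ∧ Y 15 13 ≤ (50991/10000 : ℝ) :=
    Y_bounds (by norm_num) (by norm_num) (by norm_num) (by norm_num)
  have h14 : (37416/10000 : ℝ) ≤ Y 15 14 ∧ Y 15 14 ≤ (37417/10000 : ℝ) :=
    Y_bounds (by norm_num) (by norm_num) (by norm_num) (by norm_num)
  have h15 : (0/10000 : ℝ) ≤ Y 15 15 ∧ Y 15 15 ≤ (0/10000 : ℝ) :=
    Y_bounds (by norm_num) (by norm_num) (by norm_num) (by norm_num)
  have d0 := step_le (e := 37417/10000) h0 h1 (by norm_num) (by norm_num)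
  have d1 := step_le (e := 13575/10000) h1 h2 (by norm_num) (by norm_num)
  have d2 := step_le (e := 9010/10000) h2 h3 (by norm_num) (by norm_num)
  have d3 := step_le (e := 6333/10000) h3 h4 (by norm_num) (by norm_num)
  have d4 := step_le (e := 4379/10000) h4 h5 (by norm_num) (by norm_num)
  have d5 := step_le (e := 2775/10000) h5 h6 (by norm_num) (by norm_num)
  have d6 := step_le (e := 1350/10000) h6 h7 (by norm_num) (by norm_num)
  have d7 := step_le (e := 1/10000) h7 h8 (by norm_num) (by norm_num)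
  have d8 := step_le (e := 1350/10000) h8 h9 (by norm_num) (by norm_num)
  have d9 := step_le (e := 2775/10000) h9 h10 (by norm_num) (by norm_num)
  have d10 := step_le (e := 4379/10000) h10 h11 (by norm_num) (by norm_num)
  have d11 := step_le (e := 6333/10000) h11 h12 (by norm_num) (by norm_num)
  have d12 := step_le (e := 9010/10000) h12 h13 (by norm_num) (by norm_num)
  have d13 := step_le (e := 13575/10000) h13 h14 (by norm_num) (by norm_num)
  have d14 := step_le (e := 37417/10000) h14 h15 (by norm_num) (by norm_num)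
  have hE : energy 15 = (Y 15 1 - Y 15 0) ^ 2 + (Y 15 2 - Y 15 1) ^ 2 + (Y 15 3 - Y 15 2) ^ 2 + (Y 15 4 - Y 15 3) ^ 2 + (Y 15 5 - Y 15 4) ^ 2 + (Y 15 6 - Y 15 5) ^ 2 + (Y 15 7 - Y 15 6) ^ 2 + (Y 15 8 - Y 15 7) ^ 2 + (Y 15 9 - Y 15 8) ^ 2 + (Y 15 10 - Y 15 9) ^ 2 + (Y 15 11 - Y 15 10) ^ 2 + (Y 15 12 - Y 15 11) ^ 2 + (Y 15 13 - Y 15 12) ^ 2 + (Y 15 14 - Y 15 13) ^ 2 + (Y 15 15 - Y 15 14) ^ 2 := by
    simp [energy, Finset.sum_range_succ]
  rw [hE]
  push_cast
  linarith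

theorem free_7_18 : (unitGraph 7).CliqueFree 18 := by
  apply cliqueFree_of
  have h0 : (0/10000 : ℝ) ≤ Y 18 0 ∧ Y 18 0 ≤ (0/10000 : ℝ) :=
    Y_bounds (by norm_num) (by norm_num) (by norm_num) (by norm_num)
  have h1 : (41231/10000 : ℝ) ≤ Y 18 1 ∧ Y 18 1 ≤ (41232/10000 : ℝ) :=
    Y_bounds (by norm_num) (by norm_num) (by norm_num) (by norm_num)
  have h2 : (56568/10000 : ℝ) ≤ Y 18 2 ∧ Y 18 2 ≤ (56569/10000 : ℝ) :=
    Y_bounds (by norm_num) (by norm_num) (by norm_num) (by norm_num)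
  have h3 : (67082/10000 : ℝ) ≤ Y 18 3 ∧ Y 18 3 ≤ (67083/10000 : ℝ) :=
    Y_bounds (by norm_num) (by norm_num) (by norm_num) (by norm_num)
  have h4 : (74833/10000 : ℝ) ≤ Y 18 4 ∧ Y 18 4 ≤ (74834/10000 : ℝ) :=
    Y_bounds (by norm_num) (by norm_num) (by norm_num) (by norm_num)
  have h5 : (80622/10000 : ℝ) ≤ Y 18 5 ∧ Y 18 5 ≤ (80623/10000 : ℝ) :=
    Y_bounds (by norm_num) (by norm_num) (by norm_num) (by norm_num)
  have h6 : (84852/10000 : ℝ) ≤ Y 18 6 ∧ Y 18 6 ≤ (84853/10000 : ℝ) :=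
    Y_bounds (by norm_num) (by norm_num) (by norm_num) (by norm_num)
  have h7 : (87749/10000 : ℝ) ≤ Y 18 7 ∧ Y 18 7 ≤ (87750/10000 : ℝ) :=
    Y_bounds (by norm_num) (by norm_num) (by norm_num) (by norm_num)
  have h8 : (89442/10000 : ℝ) ≤ Y 18 8 ∧ Y 18 8 ≤ (89443/10000 : ℝ) :=
    Y_bounds (by norm_num) (by norm_num) (by norm_num) (by norm_num)
  have h9 : (90000/10000 : ℝ) ≤ Y 18 9 ∧ Y 18 9 ≤ (90000/10000 : ℝ) :=
    Y_bounds (by norm_num) (by norm_num) (by norm_num) (by norm_num)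
  have h10 : (89442/10000 : ℝ) ≤ Y 18 10 ∧ Y 18 10 ≤ (89443/10000 : ℝ) :=
    Y_bounds (by norm_num) (by norm_num) (by norm_num) (by norm_num)
  have h11 : (87749/10000 : ℝ) ≤ Y 18 11 ∧ Y 18 11 ≤ (87750/10000 : ℝ) :=
    Y_bounds (by norm_num) (by norm_num) (by norm_num) (by norm_num)
  have h12 : (84852/10000 : ℝ) ≤ Y 18 12 ∧ Y 18 12 ≤ (84853/10000 : ℝ) :=
    Y_bounds (by norm_num) (by norm_num) (by norm_num) (by norm_num)
  have h13 : (80622/10000 : ℝ) ≤ Y 18 13 ∧ Y 18 13 ≤ (80623/10000 : ℝ) :=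
    Y_bounds (by norm_num) (by norm_num) (by norm_num) (by norm_num)
  have h14 : (74833/10000 : ℝ) ≤ Y 18 14 ∧ Y 18 14 ≤ (74834/10000 : ℝ) :=
    Y_bounds (by norm_num) (by norm_num) (by norm_num) (by norm_num)
  have h15 : (67082/10000 : ℝ) ≤ Y 18 15 ∧ Y 18 15 ≤ (67083/10000 : ℝ) :=
    Y_bounds (by norm_num) (by norm_num) (by norm_num) (by norm_num)
  have h16 : (56568/10000 : ℝ) ≤ Y 18 16 ∧ Y 18 16 ≤ (56569/10000 : ℝ) :=
    Y_bounds (by norm_num) (by norm_num) (by norm_num) (by norm_num)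
  have h17 : (41231/10000 : ℝ) ≤ Y 18 17 ∧ Y 18 17 ≤ (41232/10000 : ℝ) :=
    Y_bounds (by norm_num) (by norm_num) (by norm_num) (by norm_num)
  have h18 : (0/10000 : ℝ) ≤ Y 18 18 ∧ Y 18 18 ≤ (0/10000 : ℝ) :=
    Y_bounds (by norm_num) (by norm_num) (by norm_num) (by norm_num)
  have d0 := step_le (e := 41232/10000) h0 h1 (by norm_num) (by norm_num)
  have d1 := step_le (e := 15338/10000) h1 h2 (by norm_num) (by norm_num)
  have d2 := step_le (e := 10515/10000) h2 h3 (by norm_num) (by norm_num)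
  have d3 := step_le (e := 7752/10000) h3 h4 (by norm_num) (by norm_num)
  have d4 := step_le (e := 5790/10000) h4 h5 (by norm_num) (by norm_num)
  have d5 := step_le (e := 4231/10000) h5 h6 (by norm_num) (by norm_num)
  have d6 := step_le (e := 2898/10000) h6 h7 (by norm_num) (by norm_num)
  have d7 := step_le (e := 1694/10000) h7 h8 (by norm_num) (by norm_num)
  have d8 := step_le (e := 558/10000) h8 h9 (by norm_num) (by norm_num)
  have d9 := step_le (e := 558/10000) h9 h10 (by norm_num) (by norm_num)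
  have d10 := step_le (e := 1694/10000) h10 h11 (by norm_num) (by norm_num)
  have d11 := step_le (e := 2898/10000) h11 h12 (by norm_num) (by norm_num)
  have d12 := step_le (e := 4231/10000) h12 h13 (by norm_num) (by norm_num)
  have d13 := step_le (e := 5790/10000) h13 h14 (by norm_num) (by norm_num)
  have d14 := step_le (e := 7752/10000) h14 h15 (by norm_num) (by norm_num)
  have d15 := step_le (e := 10515/10000) h15 h16 (by norm_num) (by norm_num)
  have d16 := step_le (e := 15338/10000) h16 h17 (by norm_num) (by norm_num)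
  have d17 := step_le (e := 41232/10000) h17 h18 (by norm_num) (by norm_num)
  have hE : energy 18 = (Y 18 1 - Y 18 0) ^ 2 + (Y 18 2 - Y 18 1) ^ 2 + (Y 18 3 - Y 18 2) ^ 2 + (Y 18 4 - Y 18 3) ^ 2 + (Y 18 5 - Y 18 4) ^ 2 + (Y 18 6 - Y 18 5) ^ 2 + (Y 18 7 - Y 18 6) ^ 2 + (Y 18 8 - Y 18 7) ^ 2 + (Y 18 9 - Y 18 8) ^ 2 + (Y 18 10 - Y 18 9) ^ 2 + (Y 18 11 - Y 18 10) ^ 2 + (Y 18 12 - Y 18 11) ^ 2 + (Y 18 13 - Y 18 12) ^ 2 + (Y 18 14 - Y 18 13) ^ 2 + (Y 18 15 - Y 18 14) ^ 2 + (Y 18 16 - Y 18 15) ^ 2 + (Y 18 17 - Y 18 16) ^ 2 + (Y 18 18 - Y 18 17) ^ 2 := by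
    simp [energy, Finset.sum_range_succ]
  rw [hE]
  push_cast
  linarith

theorem free_8_21 : (unitGraph 8).CliqueFree 21 := by
  apply cliqueFree_of
  have h0 : (0/10000 : ℝ) ≤ Y 21 0 ∧ Y 21 0 ≤ (0/10000 : ℝ) :=
    Y_bounds (by norm_num) (by norm_num) (by norm_num) (by norm_num)
  have h1 : (44721/10000 : ℝ) ≤ Y 21 1 ∧ Y 21 1 ≤ (44722/10000 : ℝ) :=
    Y_bounds (by norm_num) (by norm_num) (by norm_num) (by norm_num)
  have h2 : (61644/10000 : ℝ) ≤ Y 21 2 ∧ Y 21 2 ≤ (61645/10000 : ℝ) :=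
    Y_bounds (by norm_num) (by norm_num) (by norm_num) (by norm_num)
  have h3 : (73484/10000 : ℝ) ≤ Y 21 3 ∧ Y 21 3 ≤ (73485/10000 : ℝ) :=
    Y_bounds (by norm_num) (by norm_num) (by norm_num) (by norm_num)
  have h4 : (82462/10000 : ℝ) ≤ Y 21 4 ∧ Y 21 4 ≤ (82463/10000 : ℝ) :=
    Y_bounds (by norm_num) (by norm_num) (by norm_num) (by norm_num)
  have h5 : (89442/10000 : ℝ) ≤ Y 21 5 ∧ Y 21 5 ≤ (89443/10000 : ℝ) :=
    Y_bounds (by norm_num) (by norm_num) (by norm_num) (by norm_num)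
  have h6 : (94868/10000 : ℝ) ≤ Y 21 6 ∧ Y 21 6 ≤ (94869/10000 : ℝ) :=
    Y_bounds (by norm_num) (by norm_num) (by norm_num) (by norm_num)
  have h7 : (98994/10000 : ℝ) ≤ Y 21 7 ∧ Y 21 7 ≤ (98995/10000 : ℝ) :=
    Y_bounds (by norm_num) (by norm_num) (by norm_num) (by norm_num)
  have h8 : (101980/10000 : ℝ) ≤ Y 21 8 ∧ Y 21 8 ≤ (101981/10000 : ℝ) :=
    Y_bounds (by norm_num) (by norm_num) (by norm_num) (by norm_num)
  have h9 : (103923/10000 : ℝ) ≤ Y 21 9 ∧ Y 21 9 ≤ (103924/10000 : ℝ) :=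
    Y_bounds (by norm_num) (by norm_num) (by norm_num) (by norm_num)
  have h10 : (104880/10000 : ℝ) ≤ Y 21 10 ∧ Y 21 10 ≤ (104881/10000 : ℝ) :=
    Y_bounds (by norm_num) (by norm_num) (by norm_num) (by norm_num)
  have h11 : (104880/10000 : ℝ) ≤ Y 21 11 ∧ Y 21 11 ≤ (104881/10000 : ℝ) :=
    Y_bounds (by norm_num) (by norm_num) (by norm_num) (by norm_num)
  have h12 : (103923/10000 : ℝ) ≤ Y 21 12 ∧ Y 21 12 ≤ (103924/10000 : ℝ) :=
    Y_bounds (by norm_num) (by norm_num) (by norm_num) (by norm_num)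
  have h13 : (101980/10000 : ℝ) ≤ Y 21 13 ∧ Y 21 13 ≤ (101981/10000 : ℝ) :=
    Y_bounds (by norm_num) (by norm_num) (by norm_num) (by norm_num)
  have h14 : (98994/10000 : ℝ) ≤ Y 21 14 ∧ Y 21 14 ≤ (98995/10000 : ℝ) :=
    Y_bounds (by norm_num) (by norm_num) (by norm_num) (by norm_num)
  have h15 : (94868/10000 : ℝ) ≤ Y 21 15 ∧ Y 21 15 ≤ (94869/10000 : ℝ) :=
    Y_bounds (by norm_num) (by norm_num) (by norm_num) (by norm_num)
  have h16 : (89442/10000 : ℝ) ≤ Y 21 16 ∧ Y 21 16 ≤ (89443/10000 : ℝ) :=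
    Y_bounds (by norm_num) (by norm_num) (by norm_num) (by norm_num)
  have h17 : (82462/10000 : ℝ) ≤ Y 21 17 ∧ Y 21 17 ≤ (82463/10000 : ℝ) :=
    Y_bounds (by norm_num) (by norm_num) (by norm_num) (by norm_num)
  have h18 : (73484/10000 : ℝ) ≤ Y 21 18 ∧ Y 21 18 ≤ (73485/10000 : ℝ) :=
    Y_bounds (by norm_num) (by norm_num) (by norm_num) (by norm_num)
  have h19 : (61644/10000 : ℝ) ≤ Y 21 19 ∧ Y 21 19 ≤ (61645/10000 : ℝ) :=
    Y_bounds (by norm_num) (by norm_num) (by norm_num) (by norm_num)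
  have h20 : (44721/10000 : ℝ) ≤ Y 21 20 ∧ Y 21 20 ≤ (44722/10000 : ℝ) :=
    Y_bounds (by norm_num) (by norm_num) (by norm_num) (by norm_num)
  have h21 : (0/10000 : ℝ) ≤ Y 21 21 ∧ Y 21 21 ≤ (0/10000 : ℝ) :=
    Y_bounds (by norm_num) (by norm_num) (by norm_num) (by norm_num)
  have d0 := step_le (e := 44722/10000) h0 h1 (by norm_num) (by norm_num)
  have d1 := step_le (e := 16924/10000) h1 h2 (by norm_num) (by norm_num)
  have d2 := step_le (e := 11841/10000) h2 h3 (by norm_num) (by norm_num)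
  have d3 := step_le (e := 8979/10000) h3 h4 (by norm_num) (by norm_num)
  have d4 := step_le (e := 6981/10000) h4 h5 (by norm_num) (by norm_num)
  have d5 := step_le (e := 5427/10000) h5 h6 (by norm_num) (by norm_num)
  have d6 := step_le (e := 4127/10000) h6 h7 (by norm_num) (by norm_num)
  have d7 := step_le (e := 2987/10000) h7 h8 (by norm_num) (by norm_num)
  have d8 := step_le (e := 1944/10000) h8 h9 (by norm_num) (by norm_num)
  have d9 := step_le (e := 958/10000) h9 h10 (by norm_num) (by norm_num)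
  have d10 := step_le (e := 1/10000) h10 h11 (by norm_num) (by norm_num)
  have d11 := step_le (e := 958/10000) h11 h12 (by norm_num) (by norm_num)
  have d12 := step_le (e := 1944/10000) h12 h13 (by norm_num) (by norm_num)
  have d13 := step_le (e := 2987/10000) h13 h14 (by norm_num) (by norm_num)
  have d14 := step_le (e := 4127/10000) h14 h15 (by norm_num) (by norm_num)
  have d15 := step_le (e := 5427/10000) h15 h16 (by norm_num) (by norm_num)
  have d16 := step_le (e := 6981/10000) h16 h17 (by norm_num) (by norm_num)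
  have d17 := step_le (e := 8979/10000) h17 h18 (by norm_num) (by norm_num)
  have d18 := step_le (e := 11841/10000) h18 h19 (by norm_num) (by norm_num)
  have d19 := step_le (e := 16924/10000) h19 h20 (by norm_num) (by norm_num)
  have d20 := step_le (e := 44722/10000) h20 h21 (by norm_num) (by norm_num)
  have hE : energy 21 = (Y 21 1 - Y 21 0) ^ 2 + (Y 21 2 - Y 21 1) ^ 2 + (Y 21 3 - Y 21 2) ^ 2 + (Y 21 4 - Y 21 3) ^ 2 + (Y 21 5 - Y 21 4) ^ 2 + (Y 21 6 - Y 21 5) ^ 2 + (Y 21 7 - Y 21 6) ^ 2 + (Y 21 8 - Y 21 7) ^ 2 + (Y 21 9 - Y 21 8) ^ 2 + (Y 21 10 - Y 21 9) ^ 2 + (Y 21 11 - Y 21 10) ^ 2 + (Y 21 12 - Y 21 11) ^ 2 + (Y 21 13 - Y 21 12) ^ 2 + (Y 21 14 - Y 21 13) ^ 2 + (Y 21 15 - Y 21 14) ^ 2 + (Y 21 16 - Y 21 15) ^ 2 + (Y 21 17 - Y 21 16) ^ 2 + (Y 21 18 - Y 21 17) ^ 2 + (Y 21 19 - Y 21 18) ^ 2 + (Y 21 20 - Y 21 19) ^ 2 + (Y 21 21 - Y 21 20) ^ 2 := by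
    simp [energy, Finset.sum_range_succ]
  rw [hE]
  push_cast
  linarith

theorem free_9_25 : (unitGraph 9).CliqueFree 25 := by
  apply cliqueFree_of
  have h0 : (0/10000 : ℝ) ≤ Y 25 0 ∧ Y 25 0 ≤ (0/10000 : ℝ) :=
    Y_bounds (by norm_num) (by norm_num) (by norm_num) (by norm_num)
  have h1 : (48989/10000 : ℝ) ≤ Y 25 1 ∧ Y 25 1 ≤ (48990/10000 : ℝ) :=
    Y_bounds (by norm_num) (by norm_num) (by norm_num) (by norm_num)
  have h2 : (67823/10000 : ℝ) ≤ Y 25 2 ∧ Y 25 2 ≤ (67824/10000 : ℝ) :=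
    Y_bounds (by norm_num) (by norm_num) (by norm_num) (by norm_num)
  have h3 : (81240/10000 : ℝ) ≤ Y 25 3 ∧ Y 25 3 ≤ (81241/10000 : ℝ) :=
    Y_bounds (by norm_num) (by norm_num) (by norm_num) (by norm_num)
  have h4 : (91651/10000 : ℝ) ≤ Y 25 4 ∧ Y 25 4 ≤ (91652/10000 : ℝ) :=
    Y_bounds (by norm_num) (by norm_num) (by norm_num) (by norm_num)
  have h5 : (100000/10000 : ℝ) ≤ Y 25 5 ∧ Y 25 5 ≤ (100000/10000 : ℝ) :=
    Y_bounds (by norm_num) (by norm_num) (by norm_num) (by norm_num)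
  have h6 : (106770/10000 : ℝ) ≤ Y 25 6 ∧ Y 25 6 ≤ (106771/10000 : ℝ) :=
    Y_bounds (by norm_num) (by norm_num) (by norm_num) (by norm_num)
  have h7 : (112249/10000 : ℝ) ≤ Y 25 7 ∧ Y 25 7 ≤ (112250/10000 : ℝ) :=
    Y_bounds (by norm_num) (by norm_num) (by norm_num) (by norm_num)
  have h8 : (116619/10000 : ℝ) ≤ Y 25 8 ∧ Y 25 8 ≤ (116620/10000 : ℝ) :=
    Y_bounds (by norm_num) (by norm_num) (by norm_num) (by norm_num)
  have h9 : (120000/10000 : ℝ) ≤ Y 25 9 ∧ Y 25 9 ≤ (120000/10000 : ℝ) :=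
    Y_bounds (by norm_num) (by norm_num) (by norm_num) (by norm_num)
  have h10 : (122474/10000 : ℝ) ≤ Y 25 10 ∧ Y 25 10 ≤ (122475/10000 : ℝ) :=
    Y_bounds (by norm_num) (by norm_num) (by norm_num) (by norm_num)
  have h11 : (124096/10000 : ℝ) ≤ Y 25 11 ∧ Y 25 11 ≤ (124097/10000 : ℝ) :=
    Y_bounds (by norm_num) (by norm_num) (by norm_num) (by norm_num)
  have h12 : (124899/10000 : ℝ) ≤ Y 25 12 ∧ Y 25 12 ≤ (124900/10000 : ℝ) :=
    Y_bounds (by norm_num) (by norm_num) (by norm_num) (by norm_num)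
  have h13 : (124899/10000 : ℝ) ≤ Y 25 13 ∧ Y 25 13 ≤ (124900/10000 : ℝ) :=
    Y_bounds (by norm_num) (by norm_num) (by norm_num) (by norm_num)
  have h14 : (124096/10000 : ℝ) ≤ Y 25 14 ∧ Y 25 14 ≤ (124097/10000 : ℝ) :=
    Y_bounds (by norm_num) (by norm_num) (by norm_num) (by norm_num)
  have h15 : (122474/10000 : ℝ) ≤ Y 25 15 ∧ Y 25 15 ≤ (122475/10000 : ℝ) :=
    Y_bounds (by norm_num) (by norm_num) (by norm_num) (by norm_num)
  have h16 : (120000/10000 : ℝ) ≤ Y 25 16 ∧ Y 25 16 ≤ (120000/10000 : ℝ) :=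
    Y_bounds (by norm_num) (by norm_num) (by norm_num) (by norm_num)
  have h17 : (116619/10000 : ℝ) ≤ Y 25 17 ∧ Y 25 17 ≤ (116620/10000 : ℝ) :=
    Y_bounds (by norm_num) (by norm_num) (by norm_num) (by norm_num)
  have h18 : (112249/10000 : ℝ) ≤ Y 25 18 ∧ Y 25 18 ≤ (112250/10000 : ℝ) :=
    Y_bounds (by norm_num) (by norm_num) (by norm_num) (by norm_num)
  have h19 : (106770/10000 : ℝ) ≤ Y 25 19 ∧ Y 25 19 ≤ (106771/10000 : ℝ) :=
    Y_bounds (by norm_num) (by norm_num) (by norm_num) (by norm_num)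
  have h20 : (100000/10000 : ℝ) ≤ Y 25 20 ∧ Y 25 20 ≤ (100000/10000 : ℝ) :=
    Y_bounds (by norm_num) (by norm_num) (by norm_num) (by norm_num)
  have h21 : (91651/10000 : ℝ) ≤ Y 25 21 ∧ Y 25 21 ≤ (91652/10000 : ℝ) :=
    Y_bounds (by norm_num) (by norm_num) (by norm_num) (by norm_num)
  have h22 : (81240/10000 : ℝ) ≤ Y 25 22 ∧ Y 25 22 ≤ (81241/10000 : ℝ) :=
    Y_bounds (by norm_num) (by norm_num) (by norm_num) (by norm_num)
  have h23 : (67823/10000 : ℝ) ≤ Y 25 23 ∧ Y 25 23 ≤ (67824/10000 : ℝ) :=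
    Y_bounds (by norm_num) (by norm_num) (by norm_num) (by norm_num)
  have h24 : (48989/10000 : ℝ) ≤ Y 25 24 ∧ Y 25 24 ≤ (48990/10000 : ℝ) :=
    Y_bounds (by norm_num) (by norm_num) (by norm_num) (by norm_num)
  have h25 : (0/10000 : ℝ) ≤ Y 25 25 ∧ Y 25 25 ≤ (0/10000 : ℝ) :=
    Y_bounds (by norm_num) (by norm_num) (by norm_num) (by norm_num)
  have d0 := step_le (e := 48990/10000) h0 h1 (by norm_num) (by norm_num)
  have d1 := step_le (e := 18835/10000) h1 h2 (by norm_num) (by norm_num)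
  have d2 := step_le (e := 13418/10000) h2 h3 (by norm_num) (by norm_num)
  have d3 := step_le (e := 10412/10000) h3 h4 (by norm_num) (by norm_num)
  have d4 := step_le (e := 8349/10000) h4 h5 (by norm_num) (by norm_num)
  have d5 := step_le (e := 6771/10000) h5 h6 (by norm_num) (by norm_num)
  have d6 := step_le (e := 5480/10000) h6 h7 (by norm_num) (by norm_num)
  have d7 := step_le (e := 4371/10000) h7 h8 (by norm_num) (by norm_num)
  have d8 := step_le (e := 3381/10000) h8 h9 (by norm_num) (by norm_num)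
  have d9 := step_le (e := 2475/10000) h9 h10 (by norm_num) (by norm_num)
  have d10 := step_le (e := 1623/10000) h10 h11 (by norm_num) (by norm_num)
  have d11 := step_le (e := 804/10000) h11 h12 (by norm_num) (by norm_num)
  have d12 := step_le (e := 1/10000) h12 h13 (by norm_num) (by norm_num)
  have d13 := step_le (e := 804/10000) h13 h14 (by norm_num) (by norm_num)
  have d14 := step_le (e := 1623/10000) h14 h15 (by norm_num) (by norm_num)
  have d15 := step_le (e := 2475/10000) h15 h16 (by norm_num) (by norm_num)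
  have d16 := step_le (e := 3381/10000) h16 h17 (by norm_num) (by norm_num)
  have d17 := step_le (e := 4371/10000) h17 h18 (by norm_num) (by norm_num)
  have d18 := step_le (e := 5480/10000) h18 h19 (by norm_num) (by norm_num)
  have d19 := step_le (e := 6771/10000) h19 h20 (by norm_num) (by norm_num)
  have d20 := step_le (e := 8349/10000) h20 h21 (by norm_num) (by norm_num)
  have d21 := step_le (e := 10412/10000) h21 h22 (by norm_num) (by norm_num)
  have d22 := step_le (e := 13418/10000) h22 h23 (by norm_num) (by norm_num)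
  have d23 := step_le (e := 18835/10000) h23 h24 (by norm_num) (by norm_num)
  have d24 := step_le (e := 48990/10000) h24 h25 (by norm_num) (by norm_num)
  have hE : energy 25 = (Y 25 1 - Y 25 0) ^ 2 + (Y 25 2 - Y 25 1) ^ 2 + (Y 25 3 - Y 25 2) ^ 2 + (Y 25 4 - Y 25 3) ^ 2 + (Y 25 5 - Y 25 4) ^ 2 + (Y 25 6 - Y 25 5) ^ 2 + (Y 25 7 - Y 25 6) ^ 2 + (Y 25 8 - Y 25 7) ^ 2 + (Y 25 9 - Y 25 8) ^ 2 + (Y 25 10 - Y 25 9) ^ 2 + (Y 25 11 - Y 25 10) ^ 2 + (Y 25 12 - Y 25 11) ^ 2 + (Y 25 13 - Y 25 12) ^ 2 + (Y 25 14 - Y 25 13) ^ 2 + (Y 25 15 - Y 25 14) ^ 2 + (Y 25 16 - Y 25 15) ^ 2 + (Y 25 17 - Y 25 16) ^ 2 + (Y 25 18 - Y 25 17) ^ 2 + (Y 25 19 - Y 25 18) ^ 2 + (Y 25 20 - Y 25 19) ^ 2 + (Y 25 21 - Y 25 20) ^ 2 + (Y 25 22 - Y 25 21) ^ 2 + (Y 25 23 - Y 25 22) ^ 2 + (Y 25 24 - Y 25 23) ^ 2 + (Y 25 25 - Y 25 24) ^ 2 := by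
    simp [energy, Finset.sum_range_succ]
  rw [hE]
  push_cast
  linarith

theorem free_10_28 : (unitGraph 10).CliqueFree 28 := by
  apply cliqueFree_of
  have h0 : (0/10000 : ℝ) ≤ Y 28 0 ∧ Y 28 0 ≤ (0/10000 : ℝ) :=
    Y_bounds (by norm_num) (by norm_num) (by norm_num) (by norm_num)
  have h1 : (51961/10000 : ℝ) ≤ Y 28 1 ∧ Y 28 1 ≤ (51962/10000 : ℝ) :=
    Y_bounds (by norm_num) (by norm_num) (by norm_num) (by norm_num)
  have h2 : (72111/10000 : ℝ) ≤ Y 28 2 ∧ Y 28 2 ≤ (72112/10000 : ℝ) :=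
    Y_bounds (by norm_num) (by norm_num) (by norm_num) (by norm_num)
  have h3 : (86602/10000 : ℝ) ≤ Y 28 3 ∧ Y 28 3 ≤ (86603/10000 : ℝ) :=
    Y_bounds (by norm_num) (by norm_num) (by norm_num) (by norm_num)
  have h4 : (97979/10000 : ℝ) ≤ Y 28 4 ∧ Y 28 4 ≤ (97980/10000 : ℝ) :=
    Y_bounds (by norm_num) (by norm_num) (by norm_num) (by norm_num)
  have h5 : (107238/10000 : ℝ) ≤ Y 28 5 ∧ Y 28 5 ≤ (107239/10000 : ℝ) :=
    Y_bounds (by norm_num) (by norm_num) (by norm_num) (by norm_num)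
  have h6 : (114891/10000 : ℝ) ≤ Y 28 6 ∧ Y 28 6 ≤ (114892/10000 : ℝ) :=
    Y_bounds (by norm_num) (by norm_num) (by norm_num) (by norm_num)
  have h7 : (121243/10000 : ℝ) ≤ Y 28 7 ∧ Y 28 7 ≤ (121244/10000 : ℝ) :=
    Y_bounds (by norm_num) (by norm_num) (by norm_num) (by norm_num)
  have h8 : (126491/10000 : ℝ) ≤ Y 28 8 ∧ Y 28 8 ≤ (126492/10000 : ℝ) :=
    Y_bounds (by norm_num) (by norm_num) (by norm_num) (by norm_num)
  have h9 : (130766/10000 : ℝ) ≤ Y 28 9 ∧ Y 28 9 ≤ (130767/10000 : ℝ) :=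
    Y_bounds (by norm_num) (by norm_num) (by norm_num) (by norm_num)
  have h10 : (134164/10000 : ℝ) ≤ Y 28 10 ∧ Y 28 10 ≤ (134165/10000 : ℝ) :=
    Y_bounds (by norm_num) (by norm_num) (by norm_num) (by norm_num)
  have h11 : (136747/10000 : ℝ) ≤ Y 28 11 ∧ Y 28 11 ≤ (136748/10000 : ℝ) :=
    Y_bounds (by norm_num) (by norm_num) (by norm_num) (by norm_num)
  have h12 : (138564/10000 : ℝ) ≤ Y 28 12 ∧ Y 28 12 ≤ (138565/10000 : ℝ) :=
    Y_bounds (by norm_num) (by norm_num) (by norm_num) (by norm_num)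
  have h13 : (139642/10000 : ℝ) ≤ Y 28 13 ∧ Y 28 13 ≤ (139643/10000 : ℝ) :=
    Y_bounds (by norm_num) (by norm_num) (by norm_num) (by norm_num)
  have h14 : (140000/10000 : ℝ) ≤ Y 28 14 ∧ Y 28 14 ≤ (140000/10000 : ℝ) :=
    Y_bounds (by norm_num) (by norm_num) (by norm_num) (by norm_num)
  have h15 : (139642/10000 : ℝ) ≤ Y 28 15 ∧ Y 28 15 ≤ (139643/10000 : ℝ) :=
    Y_bounds (by norm_num) (by norm_num) (by norm_num) (by norm_num)
  have h16 : (138564/10000 : ℝ) ≤ Y 28 16 ∧ Y 28 16 ≤ (138565/10000 : ℝ) :=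
    Y_bounds (by norm_num) (by norm_num) (by norm_num) (by norm_num)
  have h17 : (136747/10000 : ℝ) ≤ Y 28 17 ∧ Y 28 17 ≤ (136748/10000 : ℝ) :=
    Y_bounds (by norm_num) (by norm_num) (by norm_num) (by norm_num)
  have h18 : (134164/10000 : ℝ) ≤ Y 28 18 ∧ Y 28 18 ≤ (134165/10000 : ℝ) :=
    Y_bounds (by norm_num) (by norm_num) (by norm_num) (by norm_num)
  have h19 : (130766/10000 : ℝ) ≤ Y 28 19 ∧ Y 28 19 ≤ (130767/10000 : ℝ) :=
    Y_bounds (by norm_num) (by norm_num) (by norm_num) (by norm_num)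
  have h20 : (126491/10000 : ℝ) ≤ Y 28 20 ∧ Y 28 20 ≤ (126492/10000 : ℝ) :=
    Y_bounds (by norm_num) (by norm_num) (by norm_num) (by norm_num)
  have h21 : (121243/10000 : ℝ) ≤ Y 28 21 ∧ Y 28 21 ≤ (121244/10000 : ℝ) :=
    Y_bounds (by norm_num) (by norm_num) (by norm_num) (by norm_num)
  have h22 : (114891/10000 : ℝ) ≤ Y 28 22 ∧ Y 28 22 ≤ (114892/10000 : ℝ) :=
    Y_bounds (by norm_num) (by norm_num) (by norm_num) (by norm_num)
  have h23 : (107238/10000 : ℝ) ≤ Y 28 23 ∧ Y 28 23 ≤ (107239/10000 : ℝ) :=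
    Y_bounds (by norm_num) (by norm_num) (by norm_num) (by norm_num)
  have h24 : (97979/10000 : ℝ) ≤ Y 28 24 ∧ Y 28 24 ≤ (97980/10000 : ℝ) :=
    Y_bounds (by norm_num) (by norm_num) (by norm_num) (by norm_num)
  have h25 : (86602/10000 : ℝ) ≤ Y 28 25 ∧ Y 28 25 ≤ (86603/10000 : ℝ) :=
    Y_bounds (by norm_num) (by norm_num) (by norm_num) (by norm_num)
  have h26 : (72111/10000 : ℝ) ≤ Y 28 26 ∧ Y 28 26 ≤ (72112/10000 : ℝ) :=
    Y_bounds (by norm_num) (by norm_num) (by norm_num) (by norm_num)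
  have h27 : (51961/10000 : ℝ) ≤ Y 28 27 ∧ Y 28 27 ≤ (51962/10000 : ℝ) :=
    Y_bounds (by norm_num) (by norm_num) (by norm_num) (by norm_num)
  have h28 : (0/10000 : ℝ) ≤ Y 28 28 ∧ Y 28 28 ≤ (0/10000 : ℝ) :=
    Y_bounds (by norm_num) (by norm_num) (by norm_num) (by norm_num)
  have d0 := step_le (e := 51962/10000) h0 h1 (by norm_num) (by norm_num)
  have d1 := step_le (e := 20151/10000) h1 h2 (by norm_num) (by norm_num)
  have d2 := step_le (e := 14492/10000) h2 h3 (by norm_num) (by norm_num)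
  have d3 := step_le (e := 11378/10000) h3 h4 (by norm_num) (by norm_num)
  have d4 := step_le (e := 9260/10000) h4 h5 (by norm_num) (by norm_num)
  have d5 := step_le (e := 7654/10000) h5 h6 (by norm_num) (by norm_num)
  have d6 := step_le (e := 6353/10000) h6 h7 (by norm_num) (by norm_num)
  have d7 := step_le (e := 5249/10000) h7 h8 (by norm_num) (by norm_num)
  have d8 := step_le (e := 4276/10000) h8 h9 (by norm_num) (by norm_num)
  have d9 := step_le (e := 3399/10000) h9 h10 (by norm_num) (by norm_num)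
  have d10 := step_le (e := 2584/10000) h10 h11 (by norm_num) (by norm_num)
  have d11 := step_le (e := 1818/10000) h11 h12 (by norm_num) (by norm_num)
  have d12 := step_le (e := 1079/10000) h12 h13 (by norm_num) (by norm_num)
  have d13 := step_le (e := 358/10000) h13 h14 (by norm_num) (by norm_num)
  have d14 := step_le (e := 358/10000) h14 h15 (by norm_num) (by norm_num)
  have d15 := step_le (e := 1079/10000) h15 h16 (by norm_num) (by norm_num)
  have d16 := step_le (e := 1818/10000) h16 h17 (by norm_num) (by norm_num)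
  have d17 := step_le (e := 2584/10000) h17 h18 (by norm_num) (by norm_num)
  have d18 := step_le (e := 3399/10000) h18 h19 (by norm_num) (by norm_num)
  have d19 := step_le (e := 4276/10000) h19 h20 (by norm_num) (by norm_num)
  have d20 := step_le (e := 5249/10000) h20 h21 (by norm_num) (by norm_num)
  have d21 := step_le (e := 6353/10000) h21 h22 (by norm_num) (by norm_num)
  have d22 := step_le (e := 7654/10000) h22 h23 (by norm_num) (by norm_num)
  have d23 := step_le (e := 9260/10000) h23 h24 (by norm_num) (by norm_num)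
  have d24 := step_le (e := 11378/10000) h24 h25 (by norm_num) (by norm_num)
  have d25 := step_le (e := 14492/10000) h25 h26 (by norm_num) (by norm_num)
  have d26 := step_le (e := 20151/10000) h26 h27 (by norm_num) (by norm_num)
  have d27 := step_le (e := 51962/10000) h27 h28 (by norm_num) (by norm_num)
  have hE : energy 28 = (Y 28 1 - Y 28 0) ^ 2 + (Y 28 2 - Y 28 1) ^ 2 + (Y 28 3 - Y 28 2) ^ 2 + (Y 28 4 - Y 28 3) ^ 2 + (Y 28 5 - Y 28 4) ^ 2 + (Y 28 6 - Y 28 5) ^ 2 + (Y 28 7 - Y 28 6) ^ 2 + (Y 28 8 - Y 28 7) ^ 2 + (Y 28 9 - Y 28 8) ^ 2 + (Y 28 10 - Y 28 9) ^ 2 + (Y 28 11 - Y 28 10) ^ 2 + (Y 28 12 - Y 28 11) ^ 2 + (Y 28 13 - Y 28 12) ^ 2 + (Y 28 14 - Y 28 13) ^ 2 + (Y 28 15 - Y 28 14) ^ 2 + (Y 28 16 - Y 28 15) ^ 2 + (Y 28 17 - Y 28 16) ^ 2 + (Y 28 18 - Y 28 17) ^ 2 + (Y 28 19 - Y 28 18) ^ 2 + (Y 28 20 - Y 28 19) ^ 2 + (Y 28 21 - Y 28 20) ^ 2 + (Y 28 22 - Y 28 21) ^ 2 + (Y 28 23 - Y 28 22) ^ 2 + (Y 28 24 - Y 28 23)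 ^ 2 + (Y 28 25 - Y 28 24) ^ 2 + (Y 28 26 - Y 28 25) ^ 2 + (Y 28 27 - Y 28 26) ^ 2 + (Y 28 28 - Y 28 27) ^ 2 := by
    simp [energy, Finset.sum_range_succ]
  rw [hE]
  push_cast
  linarith

theorem bound :
    (∀ (d n : ℕ) (s : Finset (Fin d → ℝ)), (unitGraph d).IsNClique n s →
      (n : ℝ) - 1 ≤ d * tau n) ∧
    (∀ n : ℕ, 1 ≤ n → tau n ≤ 1 + Real.log n / 2) := by
  refine ⟨?_, ?_⟩
  · intro d n s hs
    have h := clique_energy hs
    rcases Nat.eq_zero_or_pos n with rfl | hn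
    · simp [tau_eq, energy]
    · have hn' : (0 : ℝ) < n := by exact_mod_cast hn
      rw [tau_eq, ← mul_div_assoc, le_div_iff₀ hn']
      linarith
  · intro n hn
    have hn' : (0 : ℝ) < n := by exact_mod_cast hn
    rw [tau_eq, div_le_iff₀ hn']
    have := energy_le hn
    linarith

end Pool.Agent.H43.L1
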