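import Pool.Agent.H43.L1.Defs

set_option autoImplicit false

namespace Pool.Agent.H43.L1

open Finset

/-- Weight of the cut `S` for the weights `D` (every separated pair is counted twice). -/
def cutW {N : ℕ} (D : Fin N → Fin N → ℤ) (S : Finset (Fin N)) : ℤ :=
  ∑ p, ∑ q, if (p ∈ S ↔ q ∈ S) then 0 else D p q

theorem telescope (b : ℕ → ℝ) (hb : Monotone b) (n p q : ℕ) (hp : p ≤ n) (hq : q ≤ n) :
    |b p - b q| = ∑ k ∈ range n, if (p ≤ k ↔ q ≤ k) then 0 else b (k + 1) - b k := by
  wlog h : p ≤ q generalizing p q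
  · rw [abs_sub_comm, this q p hq hp (by omega)]
    refine sum_congr rfl fun k _ => ?_
    simp only [iff_comm]
  · have h1 : ∑ k ∈ range n, (if (p ≤ k ↔ q ≤ k) then 0 else b (k + 1) - b k)
        = ∑ k ∈ Ico p q, (b (k + 1) - b k) := by
      have : Ico p q ⊆ range n := fun k hk => by
        simp only [mem_Ico, mem_range] at *
        omega
      rw [← sum_subset this]
      · refine sum_congr rfl fun k hk => ?_
        simp only [mem_Ico] at hk
        rw [if_neg]
        intro h2
        have := h2.1 hk.1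
        omega
      · intro k _ hk
        rw [if_pos]
        simp only [mem_Ico, not_and, not_lt] at hk
        constructor
        · intro h2
          exact hk h2
        · intro h2
          omega
    rw [h1, Finset.sum_Ico_eq_sub _ h, sum_range_sub, sum_range_sub, abs_sub_comm,
      abs_of_nonneg (sub_nonneg.2 (hb h))]
    ring

/-- **Two-level averaging.** -/
theorem two_level {n d : ℕ} (D : Fin (n + 1) → Fin (n + 1) → ℤ) (u : ℕ → ℤ)
    (hD0 : ∀ p, D p p = 0)
    (ha : ∀ k < n, ((d : ℤ) - 1) * u (k + 1) ≤ cutW D (univ.filter fun p => p.val ≤ k))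
    (hb : ∀ S : Finset (Fin (n + 1)), 0 < S.card → S.card ≤ n → -u S.card ≤ cutW D S)
    (hs : ∑ p, ∑ q, D p q < 0) (hd : 1 ≤ d) :
    ¬ ∃ x : Fin (n + 1) → Fin d → ℝ, ∀ p q, p ≠ q → ∑ i, |x p i - x q i| = 1 := by
  rintro ⟨x, hx⟩
  set σ : Fin d → Equiv.Perm (Fin (n + 1)) := fun i => Tuple.sort (fun p => x p i) with hσ
  have hmono : ∀ i, Monotone (fun r => x (σ i r) i) := fun i =>
    Tuple.monotone_sort (fun p => x p i)
  set b : Fin d → ℕ → ℝ := fun i k => x (σ i ⟨min k n, by omega⟩) i with hbdef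
  have hbm : ∀ i, Monotone (b i) := by
    intro i k l hkl
    apply hmono i
    simp only [Fin.mk_le_mk]
    omega
  have hbv : ∀ i (r : Fin (n + 1)), x (σ i r) i = b i r.val := by
    intro i r
    simp only [hbdef]
    congr 2
    ext
    simp only
    have := r.2
    omega
  set g : Fin d → ℕ → ℝ := fun i k => b i (k + 1) - b i k with hg
  have hg0 : ∀ i k, 0 ≤ g i k := fun i k => sub_nonneg.2 (hbm i (Nat.le_succ k))
  set F : Fin d → Fin d → ℝ := fun i j =>
    ∑ p, ∑ q, (D ((σ i).symm p) ((σ i).symm q) : ℝ) * |x p j - x q j| with hF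
  -- total
  have htot : ∀ i, ∑ j, F i j = ((∑ p, ∑ q, D p q : ℤ) : ℝ) := by
    intro i
    simp only [hF]
    rw [sum_comm]
    have h1 : ∀ p, ∑ j, ∑ q, (D ((σ i).symm p) ((σ i).symm q) : ℝ) * |x p j - x q j|
        = ∑ q, (D ((σ i).symm p) ((σ i).symm q) : ℝ) := by
      intro p
      rw [sum_comm]
      refine sum_congr rfl fun q _ => ?_
      rw [← mul_sum]
      by_cases hpq : p = q
      · subst hpq
        simp [hD0]
      · rw [hx p q hpq, mul_one]
    rw [sum_congr rfl fun p _ => h1 p]
    push_cast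
    rw [← Equiv.sum_comp (σ i).symm (fun p => ∑ q, (D p q : ℝ))]
    refine sum_congr rfl fun p _ => ?_
    rw [← Equiv.sum_comp (σ i).symm (fun q => (D ((σ i).symm p) q : ℝ))]
  -- the sets
  set T : Fin d → Fin d → ℕ → Finset (Fin (n + 1)) := fun i j k =>
    univ.filter fun p => ((σ j).symm (σ i p)).val ≤ k with hT
  have hcard : ∀ i j k, k < n → (T i j k).card = k + 1 := by
    intro i j k hk
    have h1 : (T i j k) = (univ.filter fun r : Fin (n + 1) => r.val ≤ k).map
        ((σ j).trans (σ i).symm).toEmbedding := by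
      ext p
      simp only [hT, mem_filter, mem_univ, true_and, mem_map, Equiv.coe_toEmbedding,
        Equiv.trans_apply]
      constructor
      · intro h
        exact ⟨(σ j).symm (σ i p), h, by simp⟩
      · rintro ⟨r, hr, rfl⟩
        simpa using hr
    rw [h1, card_map]
    have h2 : (univ.filter fun r : Fin (n + 1) => r.val ≤ k) = Finset.Iic ⟨k, by omega⟩ := by
      ext r
      simp [Fin.le_def]
    rw [h2, Fin.card_Iic]
  have hFij : ∀ i j, F i j = ∑ k ∈ range n, g j k * (cutW D (T i j k) : ℝ) := by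
    intro i j
    simp only [hF]
    rw [← Equiv.sum_comp (σ j) (fun p => ∑ q, (D ((σ i).symm p) ((σ i).symm q) : ℝ) *
      |x p j - x q j|)]
    have h1 : ∀ r, ∑ q, (D ((σ i).symm (σ j r)) ((σ i).symm q) : ℝ) * |x (σ j r) j - x q j|
        = ∑ s, ∑ k ∈ range n, (D ((σ i).symm (σ j r)) ((σ i).symm (σ j s)) : ℝ) *
          (if (r.val ≤ k ↔ s.val ≤ k) then 0 else g j k) := by
      intro r
      rw [← Equiv.sum_comp (σ j) (fun q => (D ((σ i).symm (σ j r)) ((σ i).symm q) : ℝ) *
        |x (σ j r) j - x q j|)]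
      refine sum_congr rfl fun s _ => ?_
      rw [← mul_sum, hbv, hbv, telescope (b j) (hbm j) n r.val s.val (by omega) (by omega)]
    rw [sum_congr rfl fun r _ => h1 r]
    have h2 : ∀ k, g j k * (cutW D (T i j k) : ℝ) = ∑ r, ∑ s,
        (D ((σ i).symm (σ j r)) ((σ i).symm (σ j s)) : ℝ) *
          (if (r.val ≤ k ↔ s.val ≤ k) then 0 else g j k) := by
      intro k
      simp only [cutW]
      push_cast
      rw [← Equiv.sum_comp ((σ j).trans (σ i).symm) (fun p => ∑ q,
        (if (p ∈ T i j k ↔ q ∈ T i j k) then (0 : ℝ) else (D p q : ℝ))), mul_sum]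
      refine sum_congr rfl fun r _ => ?_
      rw [← Equiv.sum_comp ((σ j).trans (σ i).symm) (fun q =>
        (if (((σ j).trans (σ i).symm) r ∈ T i j k ↔ q ∈ T i j k) then (0 : ℝ) else
          (D (((σ j).trans (σ i).symm) r) q : ℝ))), mul_sum]
      refine sum_congr rfl fun s _ => ?_
      simp only [hT, mem_filter, mem_univ, true_and, Equiv.trans_apply,
        Equiv.apply_symm_apply, Equiv.symm_apply_apply]
      split_ifs <;> ring
    rw [sum_congr rfl fun k _ => h2 k]
    have h3 : ∀ f : Fin (n + 1) → Fin (n + 1) → ℕ → ℝ,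
        ∑ r, ∑ s, ∑ k ∈ range n, f r s k = ∑ k ∈ range n, ∑ r, ∑ s, f r s k := by
      intro f
      have h4 : ∀ r, ∑ s, ∑ k ∈ range n, f r s k = ∑ k ∈ range n, ∑ s, f r s k :=
        fun r => sum_comm
      rw [sum_congr rfl fun r _ => h4 r, sum_comm]
    exact h3 fun r s k => (D ((σ i).symm (σ j r)) ((σ i).symm (σ j s)) : ℝ) *
      (if (r.val ≤ k ↔ s.val ≤ k) then 0 else g j k)
  have hkey : 0 ≤ ∑ i, ∑ j, F i j := by
    rw [sum_comm]
    refine sum_nonneg fun j _ => ?_
    rw [sum_congr rfl fun i _ => hFij i j, sum_comm]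
    refine sum_nonneg fun k hk => ?_
    rw [mem_range] at hk
    rw [← mul_sum]
    refine mul_nonneg (hg0 j k) ?_
    have h3 : (0 : ℤ) ≤ ∑ i, cutW D (T i j k) := by
      have h4 : ∀ i, (if i = j then ((d : ℤ) - 1) * u (k + 1) else -u (k + 1))
          ≤ cutW D (T i j k) := by
        intro i
        split_ifs with h
        · subst h
          have : T i i k = univ.filter fun p => p.val ≤ k := by
            simp [hT]
          rw [this]
          exact ha k hk
        · have := hb (T i j k) (by rw [hcard i j k hk]; omega) (by rw [hcard i j k hk]; omega)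
          rwa [hcard i j k hk] at this
      refine le_trans (le_of_eq ?_) (sum_le_sum fun i _ => h4 i)
      rw [sum_ite, sum_const, sum_const]
      have h5 : (univ.filter fun i : Fin d => i = j).card = 1 := by
        rw [filter_eq' univ j]
        simp
      have h6 : (univ.filter fun i : Fin d => ¬ i = j).card = d - 1 := by
        rw [filter_not, card_sdiff_of_subset (filter_subset _ _), h5]
        simp
      rw [h5, h6]
      simp only [nsmul_eq_mul, Nat.cast_one, one_mul]
      push_cast [Nat.cast_sub hd]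
      ring
    exact_mod_cast h3
  have hneg : ∑ i, ∑ j, F i j = d * ((∑ p, ∑ q, D p q : ℤ) : ℝ) := by
    rw [sum_congr rfl fun i _ => htot i, sum_const]
    simp
  rw [hneg] at hkey
  have hs' : ((∑ p, ∑ q, D p q : ℤ) : ℝ) < 0 := by exact_mod_cast hs
  have hd' : (0 : ℝ) < d := by exact_mod_cast hd
  nlinarith [mul_pos_of_neg_of_neg hs' (neg_neg_of_pos hd')]

end Pool.Agent.H43.L1
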